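import Mathlib

open scoped BigOperators
open Polynomial

namespace Pool.Agent.Results.MP_5bb8bc_co.PenroseMinors

/-- A binary matroid: a finite ground set `E` (a finset of some type `α`) together with a linear
space of vectors over `GF(2)` supported on `E` (the cycles). -/
structure BinMatroid (α : Type) where
  E : Finset α
  cycles : Submodule (ZMod 2) (α → ZMod 2)
  supp : ∀ x ∈ cycles, ∀ a, a ∉ E → x a = 0

variable {α β : Type} [DecidableEq α] [DecidableEq β]

/-- `restr A x` is `x` on `A` and `0` off `A` (i.e. the intersection with the set `A`). -/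
def restr (A : Finset α) : (α → ZMod 2) →ₗ[ZMod 2] (α → ZMod 2) where
  toFun x := fun a => if a ∈ A then x a else 0
  map_add' x y := by
    funext a
    by_cases h : a ∈ A <;> simp [h]
  map_smul' c x := by
    funext a
    by_cases h : a ∈ A <;> simp [h]

/-- vectors supported on `A` -/
def supportedOn (A : Finset α) : Submodule (ZMod 2) (α → ZMod 2) where
  carrier := {x | ∀ a, a ∉ A → x a = 0}
  add_mem' := by
    intro x y hx hy a ha
    simp [hx a ha, hy a ha]
  zero_mem' := by
    intro a _
    rfl
  smul_mem' := by
    intro c x hx a ha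
    simp [hx a ha]

/-- The space of cocycles: the vectors supported on `E` orthogonal to every cycle. -/
def BinMatroid.cocycles (M : BinMatroid α) : Submodule (ZMod 2) (α → ZMod 2) where
  carrier := {y | (∀ a, a ∉ M.E → y a = 0) ∧ ∀ x ∈ M.cycles, ∑ a ∈ M.E, x a * y a = 0}
  add_mem' := by
    rintro x y ⟨hx, hx'⟩ ⟨hy, hy'⟩
    refine ⟨fun a ha => by simp [hx a ha, hy a ha], fun z hz => ?_⟩
    simp only [Pi.add_apply, mul_add, Finset.sum_add_distrib, hx' z hz, hy' z hz, add_zero]
  zero_mem' := ⟨fun _ _ => rfl, fun _ _ => by simp⟩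
  smul_mem' := by
    rintro c x ⟨hx, hx'⟩
    refine ⟨fun a ha => by simp [hx a ha], fun z hz => ?_⟩
    have : ∑ a ∈ M.E, z a * (c • x) a = c * ∑ a ∈ M.E, z a * x a := by
      rw [Finset.mul_sum]
      refine Finset.sum_congr rfl fun a _ => ?_
      simp only [Pi.smul_apply, smul_eq_mul]
      ring
    rw [this, hx' z hz, mul_zero]

/-- The dual matroid. -/
def BinMatroid.dual (M : BinMatroid α) : BinMatroid α where
  E := M.E
  cycles := M.cocycles
  supp := fun _ hx => hx.1

/-- The reduction `M|A`. -/
def BinMatroid.reduction (M : BinMatroid α) (A : Finset α) : BinMatroid α where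
  E := A
  cycles := M.cycles ⊓ supportedOn A
  supp := fun _ hx => hx.2

/-- The contraction `M·A`. -/
def BinMatroid.contraction (M : BinMatroid α) (A : Finset α) : BinMatroid α where
  E := A
  cycles := M.cycles.map (restr A)
  supp := by
    rintro _ ⟨x, _, rfl⟩ a ha
    simp [restr, ha]

/-- `IsMinor N M`: `N` is obtained from `M` by finitely many reductions and contractions. -/
inductive IsMinor (M : BinMatroid α) : BinMatroid α → Prop
  | refl : IsMinor M M
  | reduction {N : BinMatroid α} (A : Finset α) (hA : A ⊆ N.E) (h : IsMinor M N) :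
      IsMinor M (N.reduction A)
  | contraction {N : BinMatroid α} (A : Finset α) (hA : A ⊆ N.E) (h : IsMinor M N) :
      IsMinor M (N.contraction A)

/-- Isomorphism of binary matroids: a bijection between the ground sets under which the cycles
correspond. -/
def Iso (M : BinMatroid α) (N : BinMatroid β) : Prop :=
  ∃ f : α → β, Set.BijOn f M.E N.E ∧
    ∀ y : β → ZMod 2, (∀ b, b ∉ N.E → y b = 0) →
      (y ∈ N.cycles ↔ (fun a => if a ∈ M.E then y (f a) else 0) ∈ M.cycles)

/-- `M` has a minor isomorphic to `N`. -/
def HasMinor (M : BinMatroid α) (N : BinMatroid β) : Prop :=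
  ∃ M' : BinMatroid α, IsMinor M M' ∧ Iso M' N

/-- Every element lies in a cycle. -/
def Bridgeless (M : BinMatroid α) : Prop := ∀ a ∈ M.E, ∃ x ∈ M.cycles, x a ≠ 0

/-- The bicycle space `B_M(A)`: the cycles `C` with `C ∩ A` a cocycle. -/
def bicycle (M : BinMatroid α) (A : Finset α) : Submodule (ZMod 2) (α → ZMod 2) :=
  M.cycles ⊓ M.cocycles.comap (restr A)

/-- The Penrose polynomial. -/
noncomputable def penrose (M : BinMatroid α) : ℤ[X] :=
  ∑ A ∈ M.E.powerset, C ((-1 : ℤ) ^ A.card) * X ^ (Module.finrank (ZMod 2) (bicycle M A))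

/-- The Penrose polynomial has alternating coefficients (`r` is the dimension of the cycle
space). -/
def Alternating (M : BinMatroid α) : Prop :=
  ∀ i ≤ Module.finrank (ZMod 2) M.cycles,
    0 < (-1 : ℤ) ^ (Module.finrank (ZMod 2) M.cycles - i) * (penrose M).coeff i

/-- Bridgeless, non-alternating, and all bridgeless proper minors are alternating. -/
def MinimalNonAlternating (M : BinMatroid α) : Prop :=
  Bridgeless M ∧ ¬ Alternating M ∧
    ∀ N : BinMatroid α, IsMinor M N → N.E ⊂ M.E → Bridgeless N → Alternating N

/-- Number of ends (mod 2) of the edge `e` at the vertex `v`. -/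
def inc (e : ℕ × ℕ) (v : ℕ) : ZMod 2 :=
  (if e.1 = v then 1 else 0) + (if e.2 = v then 1 else 0)

/-- The cycle matroid of the graph with vertex set `ℕ` (isolated vertices are irrelevant) and
with edges `L[0], L[1], …`; the ground set is `{0, …, L.length - 1}` and the cycles are the
even subgraphs. -/
def cycleMatroid (L : List (ℕ × ℕ)) : BinMatroid ℕ where
  E := Finset.range L.length
  cycles :=
    { carrier := {x | (∀ a, a ∉ Finset.range L.length → x a = 0) ∧
        ∀ v : ℕ, ∑ a ∈ Finset.range L.length, x a * inc (L.getD a (0, 0)) v = 0}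
      add_mem' := by
        rintro x y ⟨hx, hx'⟩ ⟨hy, hy'⟩
        refine ⟨fun a ha => by simp [hx a ha, hy a ha], fun v => ?_⟩
        simp only [Pi.add_apply, add_mul, Finset.sum_add_distrib, hx' v, hy' v, add_zero]
      zero_mem' := ⟨fun _ _ => rfl, fun _ => by simp⟩
      smul_mem' := by
        rintro c x ⟨hx, hx'⟩
        refine ⟨fun a ha => by simp [hx a ha], fun v => ?_⟩
        have : ∑ a ∈ Finset.range L.length, (c • x) a * inc (L.getD a (0, 0)) v
            = c * ∑ a ∈ Finset.range L.length, x a * inc (L.getD a (0, 0)) v := by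
          rw [Finset.mul_sum]
          refine Finset.sum_congr rfl fun a _ => ?_
          simp only [Pi.smul_apply, smul_eq_mul]
          ring
        rw [this, hx' v, mul_zero] }
  supp := fun _ hx => hx.1

/-- The vector of the set of elements of a list. -/
def indic (l : List ℕ) : ℕ → ZMod 2 := fun a => if a ∈ l then 1 else 0

/-- The seven lines of the Fano plane on the points `0, …, 6`. -/
def fanoLines : List (List ℕ) :=
  [[0,1,3],[1,2,4],[2,3,5],[3,4,6],[4,5,0],[5,6,1],[6,0,2]]

/-- The Fano matroid `F`: cycle space spanned by the lines of the Fano plane. -/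
def Fano : BinMatroid ℕ where
  E := Finset.range 7
  cycles := Submodule.span (ZMod 2) {x | ∃ l ∈ fanoLines, x = indic l}
  supp := by
    intro x hx a ha
    induction hx using Submodule.span_induction with
    | mem x h =>
      obtain ⟨l, hl, rfl⟩ := h
      have h7 : ∀ l ∈ fanoLines, ∀ b ∈ l, b < 7 := by decide
      have : a ∉ l := fun h => ha (Finset.mem_range.2 (h7 l hl a h))
      simp [indic, this]
    | zero => rfl
    | add x y _ _ hx hy => simp [hx, hy]
    | smul c x _ hx => simp [hx]

/-- `F*`. -/
def Fstar : BinMatroid ℕ := Fano.dual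

/-- The cycle matroid of the Petersen graph: outer pentagon `i, i+1`, spokes `i, i+5`, inner
pentagram `5+i, 5+(i+2)`. -/
def Pet : BinMatroid ℕ := cycleMatroid
  [(0,1),(1,2),(2,3),(3,4),(4,0),
   (0,5),(1,6),(2,7),(3,8),(4,9),
   (5,7),(6,8),(7,9),(8,5),(9,6)]

/-- The contraction of `Pet` by one edge (the last one, `9–6`). -/
def PetContract : BinMatroid ℕ := Pet.contraction (Finset.range 14)

/-- `K₅*`, the dual of the cycle matroid of the complete graph `K₅`. -/
def K5star : BinMatroid ℕ := (cycleMatroid
  [(0,1),(0,2),(0,3),(0,4),(1,2),(1,3),(1,4),(2,3),(2,4),(3,4)]).dual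

/-- The cycle matroid of the following plane graph with 10 vertices and 16 edges (the graph of
the tetragonal trapezohedron): an 8-cycle `0,1,…,7`, a vertex `8` joined to `0,2,4,6` and a
vertex `9` joined to `1,3,5,7`. -/
def Trap : BinMatroid ℕ := cycleMatroid
  [(0,1),(1,2),(2,3),(3,4),(4,5),(5,6),(6,7),(7,0),
   (8,0),(8,2),(8,4),(8,6),(9,1),(9,3),(9,5),(9,7)]


theorem restr_apply (A : Finset α) (x : α → ZMod 2) (a : α) :
    restr A x a = if a ∈ A then x a else 0 := rfl

theorem IsMinor.trans {M N P : BinMatroid α} (h1 : IsMinor M N) (h2 : IsMinor N P) :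
    IsMinor M P := by
  induction h2 with
  | refl => exact h1
  | reduction A hA _ ih => exact IsMinor.reduction A hA ih
  | contraction A hA _ ih => exact IsMinor.contraction A hA ih

theorem IsMinor.subset {M N : BinMatroid α} (h : IsMinor M N) : N.E ⊆ M.E := by
  induction h with
  | refl => exact fun _ h => h
  | reduction A hA _ ih => exact fun a ha => ih (hA ha)
  | contraction A hA _ ih => exact fun a ha => ih (hA ha)

theorem exists_minimal (M : BinMatroid α) (hb : Bridgeless M) (ha : ¬ Alternating M) :
    ∃ N, IsMinor M N ∧ MinimalNonAlternating N := by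
  have key : ∀ n : ℕ, ∀ M : BinMatroid α, M.E.card = n → Bridgeless M → ¬ Alternating M →
      ∃ N, IsMinor M N ∧ MinimalNonAlternating N := by
    intro n
    induction n using Nat.strong_induction_on with
    | _ n ih =>
      intro M hn hb ha
      by_cases h : ∀ N : BinMatroid α, IsMinor M N → N.E ⊂ M.E → Bridgeless N → Alternating N
      · exact ⟨M, IsMinor.refl, hb, ha, h⟩
      · push Not at h
        obtain ⟨N, h1, h2, h3, h4⟩ := h
        obtain ⟨P, hP, hP'⟩ := ih N.E.card (hn ▸ Finset.card_lt_card h2) N rfl h3 h4
        exact ⟨P, h1.trans hP, hP'⟩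
  exact key _ M rfl hb ha

/-- Graphic-type representation of a binary matroid. -/
def Graphic (M : BinMatroid α) : Prop := ∃ (n : ℕ) (S : Fin n → α → ZMod 2),
  (∀ v, ∀ a, a ∉ M.E → S v a = 0) ∧
  (∀ x : α → ZMod 2, (∀ a, a ∉ M.E → x a = 0) →
    (x ∈ M.cycles ↔ ∀ v, ∑ a ∈ M.E, x a * S v a = 0)) ∧
  (∀ a, (Finset.univ.filter (fun v => S v a ≠ 0)).card ≤ 2) ∧
  (∀ a, ∑ v, S v a = 0)

theorem zmod2_cases (a : ZMod 2) : a = 0 ∨ a = 1 := by
  revert a; decide

theorem zmod2_ne (a : ZMod 2) (h : a ≠ 0) : a = 1 := by
  revert a; decide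

theorem zmod2_add_self (a : ZMod 2) : a + a = 0 := by
  revert a; decide

theorem Graphic.reduction {M : BinMatroid α} (h : Graphic M) (A : Finset α) (hA : A ⊆ M.E) :
    Graphic (M.reduction A) := by
  obtain ⟨n, S, h1, h2, h3, h4⟩ := h
  refine ⟨n, fun v => restr A (S v), ?_, ?_, ?_, ?_⟩
  · intro v a ha
    have : a ∉ A := ha
    simp [restr_apply, this]
  · intro x hx
    have hx' : ∀ a, a ∉ A → x a = 0 := hx
    have e1 : x ∈ (M.reduction A).cycles ↔ x ∈ M.cycles :=
      ⟨fun h => h.1, fun h => ⟨h, hx'⟩⟩
    rw [e1, h2 x (fun a ha => hx' a (fun h => ha (hA h)))]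
    refine forall_congr' fun v => ?_
    have : ∑ a ∈ M.E, x a * S v a = ∑ a ∈ A, x a * restr A (S v) a := by
      rw [← Finset.sum_subset hA]
      · refine Finset.sum_congr rfl fun a ha => ?_
        simp [restr_apply, ha]
      · intro a _ ha
        simp [hx' a ha]
    rw [this]
    rfl
  · intro a
    refine le_trans (Finset.card_le_card ?_) (h3 a)
    intro v
    simp only [Finset.mem_filter, Finset.mem_univ, true_and, restr_apply]
    intro h h'
    apply h
    simp [h']
  · intro a
    by_cases ha : a ∈ A
    · simp only [restr_apply, ha, if_true]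
      exact h4 a
    · simp [restr_apply, ha]

theorem contraction_contraction (M : BinMatroid α) (A B : Finset α) (h : A ⊆ B) :
    (M.contraction B).contraction A = M.contraction A := by
  unfold BinMatroid.contraction
  congr 1
  rw [← Submodule.map_comp]
  congr 1
  ext x a
  simp only [LinearMap.comp_apply, restr_apply]
  by_cases ha : a ∈ A
  · simp [ha, h ha]
  · simp [ha]

theorem contraction_self (M : BinMatroid α) : M.contraction M.E = M := by
  cases M with
  | mk E C hC =>
    unfold BinMatroid.contraction
    congr 1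
    ext x
    constructor
    · rintro ⟨y, hy, rfl⟩
      have : restr E y = y := by
        funext a
        by_cases ha : a ∈ E
        · simp [restr_apply, ha]
        · simp [restr_apply, ha, hC y hy a ha]
      rw [this]
      exact hy
    · intro hx
      refine ⟨x, hx, ?_⟩
      funext a
      by_cases ha : a ∈ E
      · simp [restr_apply, ha]
      · simp [restr_apply, ha, hC x hx a ha]

/-- contraction of a single element -/
theorem Graphic.contraction_erase {M : BinMatroid α} (h : Graphic M) (d : α) (hd : d ∈ M.E) :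
    Graphic (M.contraction (M.E.erase d)) := by
  obtain ⟨n, S, h1, h2, h3, h4⟩ := h
  have hsum : ∀ (f : α → ZMod 2), ∑ a ∈ M.E, f a = f d + ∑ a ∈ M.E.erase d, f a := by
    intro f
    rw [← Finset.add_sum_erase _ _ hd]
  have hmem : ∀ y : α → ZMod 2, (∀ a, a ∉ M.E.erase d → y a = 0) →
      (y ∈ (M.contraction (M.E.erase d)).cycles ↔
        ∃ t : ZMod 2, (fun a => if a = d then t else y a) ∈ M.cycles) := by
    intro y hy
    constructor
    · rintro ⟨x, hx, rfl⟩
      refine ⟨x d, ?_⟩
      have : (fun a => if a = d then x d else restr (M.E.erase d) x a) = x := by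
        funext a
        by_cases had : a = d
        · simp [had]
        · by_cases haE : a ∈ M.E
          · simp [had, restr_apply, haE]
          · simp [had, restr_apply, haE, M.supp x hx a haE]
      rw [this]
      exact hx
    · rintro ⟨t, ht⟩
      refine ⟨_, ht, ?_⟩
      funext a
      by_cases ha : a ∈ M.E.erase d
      · rw [restr_apply, if_pos ha]
        simp [Finset.ne_of_mem_erase ha]
      · rw [restr_apply, if_neg ha, hy a ha]
  have hmem2 : ∀ y : α → ZMod 2, (∀ a, a ∉ M.E.erase d → y a = 0) →
      (y ∈ (M.contraction (M.E.erase d)).cycles ↔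
        ∃ t : ZMod 2, ∀ v, t * S v d + ∑ a ∈ M.E.erase d, y a * S v a = 0) := by
    intro y hy
    rw [hmem y hy]
    refine exists_congr fun t => ?_
    rw [h2]
    · refine forall_congr' fun v => ?_
      rw [hsum]
      simp only [if_true]
      have : ∑ a ∈ M.E.erase d, (if a = d then t else y a) * S v a
          = ∑ a ∈ M.E.erase d, y a * S v a := by
        refine Finset.sum_congr rfl fun a ha => ?_
        simp [Finset.ne_of_mem_erase ha]
      rw [this]
    · intro a ha
      have : a ≠ d := fun h => ha (h ▸ hd)
      simp only [this, if_false]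
      exact hy a (fun h => ha (Finset.mem_of_mem_erase h))
  by_cases hz : ∀ v, S v d = 0
  · refine ⟨n, S, ?_, ?_, h3, h4⟩
    · intro v a ha
      by_cases had : a = d
      · rw [had]; exact hz v
      · exact h1 v a (fun h => ha (Finset.mem_erase.2 ⟨had, h⟩))
    · intro y hy
      rw [hmem2 y hy]
      simp only [hz, mul_zero, zero_add, exists_const]
      rfl
  · push Not at hz
    obtain ⟨u, hu⟩ := hz
    -- a second vertex
    obtain ⟨w, hwu, hw⟩ : ∃ w, w ≠ u ∧ S w d ≠ 0 := by
      by_contra hcon
      push Not at hcon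
      have := h4 d
      rw [← Finset.add_sum_erase _ _ (Finset.mem_univ u)] at this
      rw [Finset.sum_eq_zero (fun v hv => hcon v (Finset.ne_of_mem_erase hv)), add_zero] at this
      exact hu this
    have hother : ∀ v, v ≠ u → v ≠ w → S v d = 0 := by
      intro v hvu hvw
      by_contra hv
      have hsub : ({u, w, v} : Finset (Fin n)) ⊆ Finset.univ.filter (fun v => S v d ≠ 0) := by
        intro z hz
        simp only [Finset.mem_insert, Finset.mem_singleton] at hz
        rcases hz with rfl | rfl | rfl <;> simp [hu, hw, hv]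
      have := Finset.card_le_card hsub
      have h3' := h3 d
      have hc : ({u, w, v} : Finset (Fin n)).card = 3 := by
        rw [Finset.card_insert_of_notMem, Finset.card_insert_of_notMem, Finset.card_singleton]
        · simpa using fun h => hvw h.symm
        · simp only [Finset.mem_insert, Finset.mem_singleton, not_or]
          exact ⟨fun h => hwu h.symm, fun h => hvu h.symm⟩
      omega
    have hu1 := zmod2_ne _ hu
    have hw1 := zmod2_ne _ hw
    let S' : Fin n → α → ZMod 2 := fun v a =>
      if a = d then 0 else if v = u then S u a + S w a else if v = w then 0 else S v a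
    refine ⟨n, S', ?_, ?_, ?_, ?_⟩
    · intro v a ha
      by_cases had : a = d
      · simp [S', had]
      · have : a ∉ M.E := fun h => ha (Finset.mem_erase.2 ⟨had, h⟩)
        simp only [S', had, if_false, h1 _ a this, add_zero]
        simp
    · intro y hy
      rw [hmem2 y hy]
      have hE : (M.contraction (M.E.erase d)).E = M.E.erase d := rfl
      rw [hE]
      have hS' : ∀ v, ∑ a ∈ M.E.erase d, y a * S' v a =
          if v = u then (∑ a ∈ M.E.erase d, y a * S u a) + ∑ a ∈ M.E.erase d, y a * S w a
          else if v = w then 0 else ∑ a ∈ M.E.erase d, y a * S v a := by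
        intro v
        have e : ∀ a ∈ M.E.erase d, y a * S' v a =
            if v = u then y a * S u a + y a * S w a else if v = w then 0 else y a * S v a := by
          intro a ha
          simp only [S', Finset.ne_of_mem_erase ha, if_false]
          split_ifs <;> ring
        rw [Finset.sum_congr rfl e]
        split_ifs
        · rw [Finset.sum_add_distrib]
        · simp
        · rfl
      simp only [hS']
      constructor
      · rintro ⟨t, ht⟩ v
        split_ifs with h1' h2'
        · have a1 := ht u
          have a2 := ht w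
          rw [hu1, mul_one] at a1
          rw [hw1, mul_one] at a2
          have : (t + ∑ a ∈ M.E.erase d, y a * S u a) + (t + ∑ a ∈ M.E.erase d, y a * S w a)
              = 0 := by rw [a1, a2, add_zero]
          have e : (t + ∑ a ∈ M.E.erase d, y a * S u a) + (t + ∑ a ∈ M.E.erase d, y a * S w a)
              = (t + t) + ((∑ a ∈ M.E.erase d, y a * S u a) + ∑ a ∈ M.E.erase d, y a * S w a) := by
            ring
          rw [e, zmod2_add_self, zero_add] at this
          exact this
        · rfl
        · have := ht v
          rw [hother v h1' h2', mul_zero, zero_add] at this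
          exact this
      · intro h
        refine ⟨∑ a ∈ M.E.erase d, y a * S u a, fun v => ?_⟩
        by_cases hvu : v = u
        · subst hvu
          rw [hu1, mul_one, zmod2_add_self]
        · by_cases hvw : v = w
          · subst hvw
            have := h u
            rw [if_pos rfl] at this
            rw [hw1, mul_one]
            exact this
          · have := h v
            rw [if_neg hvu, if_neg hvw] at this
            rw [hother v hvu hvw, mul_zero, zero_add, this]
    · intro a
      by_cases had : a = d
      · simp [S', had]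
      · -- count
        have hle : (Finset.univ.filter (fun v => S' v a ≠ 0)).card ≤
            (Finset.univ.filter (fun v => S v a ≠ 0)).card := by
          by_cases hua : S u a ≠ 0
          · refine Finset.card_le_card ?_
            intro v
            simp only [Finset.mem_filter, Finset.mem_univ, true_and, S', had, if_false]
            by_cases hvu : v = u
            · rw [hvu]
              intro _
              exact hua
            · by_cases hvw : v = w
              · simp [hvw, hwu]
              · simp [hvu, hvw]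
          · push Not at hua
            by_cases hwa : S w a ≠ 0
            · -- inject via swapping u to w
              refine Finset.card_le_card_of_injOn (fun v => if v = u then w else v) ?_ ?_
              · intro v
                simp only [Finset.coe_filter, Finset.mem_univ, true_and, S', had, if_false,
                  Set.mem_ofPred_eq]
                by_cases hvu : v = u
                · simp [hvu, hwa]
                · by_cases hvw : v = w
                  · simp [hvw, hwu]
                  · simp [hvu, hvw]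
              · intro v hv v' hv' hvv
                simp only [Finset.coe_filter, Finset.mem_univ, true_and, S', had, if_false,
                  Set.mem_ofPred_eq] at hv hv'
                have k1 : v ≠ w := by
                  intro h
                  rw [h] at hv
                  simp [hwu] at hv
                have k2 : v' ≠ w := by
                  intro h
                  rw [h] at hv'
                  simp [hwu] at hv'
                simp only at hvv
                by_cases hvu : v = u
                · by_cases hvu' : v' = u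
                  · rw [hvu, hvu']
                  · rw [if_pos hvu, if_neg hvu'] at hvv
                    exact absurd hvv.symm k2
                · by_cases hvu' : v' = u
                  · rw [if_neg hvu, if_pos hvu'] at hvv
                    exact absurd hvv k1
                  · rw [if_neg hvu, if_neg hvu'] at hvv
                    exact hvv
            · push Not at hwa
              refine Finset.card_le_card ?_
              intro v
              simp only [Finset.mem_filter, Finset.mem_univ, true_and, S', had, if_false]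
              by_cases hvu : v = u
              · simp [hvu, hua, hwa]
              · by_cases hvw : v = w
                · simp [hvw, hwu]
                · simp [hvu, hvw]
        exact le_trans hle (h3 a)
    · intro a
      by_cases had : a = d
      · simp [S', had]
      · have e : ∀ v, S' v a = S v a + (if v = u then S w a else 0) + (if v = w then S w a else 0) := by
          intro v
          simp only [S', had, if_false]
          by_cases hvu : v = u
          · have : ¬ (v = w) := fun h => hwu (h.symm.trans hvu)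
            subst hvu
            simp [Ne.symm hwu]
          · by_cases hvw : v = w
            · subst hvw
              simp [hvu, zmod2_add_self]
            · simp [hvu, hvw]
        simp only [e, Finset.sum_add_distrib, h4 a, Finset.sum_ite_eq', Finset.mem_univ, if_true,
          zero_add]
        exact zmod2_add_self _

theorem Graphic.contraction {M : BinMatroid α} (h : Graphic M) (A : Finset α) (hA : A ⊆ M.E) :
    Graphic (M.contraction A) := by
  have key : ∀ k : ℕ, ∀ A : Finset α, A ⊆ M.E → (M.E \ A).card = k →
      Graphic (M.contraction A) := by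
    intro k
    induction k with
    | zero =>
      intro A hA hk
      have : A = M.E := by
        apply Finset.Subset.antisymm hA
        rw [Finset.card_eq_zero, Finset.sdiff_eq_empty_iff_subset] at hk
        exact hk
      rw [this, contraction_self]
      exact h
    | succ k ih =>
      intro A hA hk
      obtain ⟨d, hd⟩ : (M.E \ A).Nonempty := by
        rw [← Finset.card_pos]; omega
      rw [Finset.mem_sdiff] at hd
      have hA' : insert d A ⊆ M.E := by
        intro a ha
        rcases Finset.mem_insert.1 ha with rfl | ha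
        · exact hd.1
        · exact hA ha
      have hk' : (M.E \ insert d A).card = k := by
        rw [Finset.sdiff_insert, Finset.card_erase_of_mem (Finset.mem_sdiff.2 hd), hk]
        rfl
      have hG := ih (insert d A) hA' hk'
      have hd' : d ∈ (M.contraction (insert d A)).E := Finset.mem_insert_self _ _
      have hG' := hG.contraction_erase d hd'
      have e : (M.contraction (insert d A)).E.erase d = A := by
        show (insert d A).erase d = A
        rw [Finset.erase_insert hd.2]
      rw [e, contraction_contraction M A _ (Finset.subset_insert _ _)] at hG'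
      exact hG'
  exact key _ A hA rfl

theorem Graphic.minor {M N : BinMatroid α} (h : Graphic M) (hN : IsMinor M N) : Graphic N := by
  induction hN with
  | refl => exact h
  | reduction A hA _ ih => exact ih.reduction A hA
  | contraction A hA _ ih => exact ih.contraction A hA


omit [DecidableEq β] in
theorem Iso.card {M : BinMatroid α} {N : BinMatroid β} (h : Iso M N) : M.E.card = N.E.card := by
  obtain ⟨f, hf, _⟩ := h
  exact Finset.card_nbij f (fun a ha => hf.mapsTo ha) hf.injOn hf.surjOn

theorem Graphic.iso {M : BinMatroid α} {N : BinMatroid β} (h : Graphic M) (hi : Iso M N) :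
    Graphic N := by
  classical
  obtain ⟨f, hf, hc⟩ := hi
  obtain ⟨n, S, h1, h2, h3, h4⟩ := h
  rcases M.E.eq_empty_or_nonempty with hE | ⟨a0, ha0⟩
  · -- empty ground set
    have hN : N.E = ∅ := by
      by_contra hne
      obtain ⟨b, hb⟩ := Finset.nonempty_iff_ne_empty.2 hne
      obtain ⟨a, ha, _⟩ := hf.surjOn hb
      rw [hE] at ha
      simp at ha
    refine ⟨0, fun v => v.elim0, fun v => v.elim0, ?_, ?_, ?_⟩
    · intro y hy
      have hy0 : y = 0 := by
        funext b
        exact hy b (by rw [hN]; simp)
      rw [hy0]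
      simp
    · intro a; simp
    · intro a; simp
  have : Nonempty α := ⟨a0⟩
  set g : β → α := Function.invFunOn f M.E with hg
  have hgf : ∀ a ∈ M.E, g (f a) = a := fun a ha => hf.injOn.leftInvOn_invFunOn ha
  have hfg : ∀ b ∈ N.E, f (g b) = b := fun b hb => hf.surjOn.rightInvOn_invFunOn hb
  have hgm : ∀ b ∈ N.E, g b ∈ M.E := fun b hb => by
    have := Function.invFunOn_mem (f := f) (s := (M.E : Set α)) (b := b) (hf.surjOn hb)
    exact this
  refine ⟨n, fun v b => if b ∈ N.E then S v (g b) else 0, ?_, ?_, ?_, ?_⟩
  · intro v b hb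
    simp [hb]
  · intro y hy
    rw [hc y hy, h2]
    · refine forall_congr' fun v => ?_
      have : ∑ a ∈ M.E, (if a ∈ M.E then y (f a) else 0) * S v a
          = ∑ b ∈ N.E, y b * (if b ∈ N.E then S v (g b) else 0) := by
        refine Finset.sum_nbij f (fun a ha => hf.mapsTo ha) hf.injOn hf.surjOn ?_
        intro a ha
        have : f a ∈ N.E := hf.mapsTo ha
        simp [ha, this, hgf a ha]
      rw [this]
    · intro a ha
      simp [ha]
  · intro b
    by_cases hb : b ∈ N.E
    · simp only [hb, if_true]
      exact h3 _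
    · simp [hb]
  · intro b
    by_cases hb : b ∈ N.E
    · simp only [hb, if_true]
      exact h4 _
    · simp [hb]

/-- Counting obstruction to being graphic. -/
theorem not_graphic (N : BinMatroid α) (J : Finset α) (hJE : J ⊆ N.E) (hJ0 : J.Nonempty)
    (hb1 : ∀ a ∈ N.E, ∃ x ∈ N.cycles, x a ≠ 0)
    (hb2 : ∀ a ∈ N.E, ∀ b ∈ N.E, a ≠ b → ∃ x ∈ N.cycles, x a ≠ x b)
    (hJ : ∀ x ∈ N.cycles, (∀ a, a ∉ J → x a = 0) → x = 0)
    (hcard : 2 * N.E.card < 3 * (J.card + 1)) : ¬ Graphic N := by
  classical
  rintro ⟨n, S, h1, h2, h3, h4⟩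
  have hcoc : ∀ v, ∀ x ∈ N.cycles, ∑ a ∈ N.E, x a * S v a = 0 := fun v x hx =>
    (h2 x (N.supp x hx)).1 hx v
  set W := Finset.univ.filter (fun v => S v ≠ 0) with hW
  have hwt : ∀ v ∈ W, 3 ≤ (N.E.filter (fun a => S v a ≠ 0)).card := by
    intro v hv
    have hv' : S v ≠ 0 := (Finset.mem_filter.1 hv).2
    by_contra hlt
    push Not at hlt
    have hsumeq : ∀ x ∈ N.cycles, ∑ a ∈ N.E.filter (fun a => S v a ≠ 0), x a = 0 := by
      intro x hx
      refine Eq.trans ?_ (hcoc v x hx)
      rw [Finset.sum_filter]
      refine Finset.sum_congr rfl fun a _ => ?_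
      by_cases h : S v a = 0
      · simp [h]
      · simp [zmod2_ne _ h]
    have hcases : (N.E.filter (fun a => S v a ≠ 0)).card = 0 ∨
        (N.E.filter (fun a => S v a ≠ 0)).card = 1 ∨
        (N.E.filter (fun a => S v a ≠ 0)).card = 2 := by omega
    rcases hcases with h0 | h0 | h0
    · apply hv'
      funext a
      by_cases ha : a ∈ N.E
      · by_contra hne
        have : a ∈ N.E.filter (fun a => S v a ≠ 0) := Finset.mem_filter.2 ⟨ha, hne⟩
        rw [Finset.card_eq_zero] at h0
        rw [h0] at this
        simp at this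
      · exact h1 v a ha
    · obtain ⟨a, ha⟩ := Finset.card_eq_one.1 h0
      have haE : a ∈ N.E := by
        have : a ∈ N.E.filter (fun a => S v a ≠ 0) := by rw [ha]; simp
        exact (Finset.mem_filter.1 this).1
      obtain ⟨x, hx, hxa⟩ := hb1 a haE
      have := hsumeq x hx
      rw [ha, Finset.sum_singleton] at this
      exact hxa this
    · obtain ⟨a, b, hab, hs⟩ := Finset.card_eq_two.1 h0
      have haE : a ∈ N.E := by
        have : a ∈ N.E.filter (fun a => S v a ≠ 0) := by rw [hs]; simp
        exact (Finset.mem_filter.1 this).1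
      have hbE : b ∈ N.E := by
        have : b ∈ N.E.filter (fun a => S v a ≠ 0) := by rw [hs]; simp
        exact (Finset.mem_filter.1 this).1
      obtain ⟨x, hx, hxa⟩ := hb2 a haE b hbE hab
      have := hsumeq x hx
      rw [hs, Finset.sum_pair hab] at this
      apply hxa
      have h' : x a + x b + x b = x b := by rw [this, zero_add]
      rw [add_assoc, zmod2_add_self, add_zero] at h'
      exact h'
  -- double counting
  have hdc : ∑ v ∈ W, (N.E.filter (fun a => S v a ≠ 0)).card ≤ 2 * N.E.card := by
    have e : ∑ v ∈ W, (N.E.filter (fun a => S v a ≠ 0)).card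
        = ∑ a ∈ N.E, (W.filter (fun v => S v a ≠ 0)).card := by
      simp only [Finset.card_filter]
      exact Finset.sum_comm
    rw [e, mul_comm, ← smul_eq_mul]
    refine Finset.sum_le_card_nsmul _ _ _ fun a _ => ?_
    refine le_trans (Finset.card_le_card ?_) (h3 a)
    intro v
    simp only [Finset.mem_filter, Finset.mem_univ, true_and]
    exact fun h => h.2
  have hW3 : 3 * W.card ≤ ∑ v ∈ W, (N.E.filter (fun a => S v a ≠ 0)).card := by
    rw [mul_comm, ← smul_eq_mul]
    exact Finset.card_nsmul_le_sum _ _ _ hwt
  have hWJ : W.card ≤ J.card := by omega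
  -- build a nonzero cycle supported on J
  obtain ⟨j0, hj0⟩ := hJ0
  rcases W.eq_empty_or_nonempty with hWe | ⟨w0, hw0⟩
  · have hall : ∀ v, S v = 0 := by
      intro v
      by_contra hv
      have : v ∈ W := Finset.mem_filter.2 ⟨Finset.mem_univ _, hv⟩
      rw [hWe] at this
      simp at this
    have hx : (Pi.single j0 1 : α → ZMod 2) ∈ N.cycles := by
      rw [h2]
      · intro v
        simp [hall v]
      · intro a ha
        have : a ≠ j0 := fun h => ha (h ▸ hJE hj0)
        simp [this]
    have := hJ _ hx (fun a ha => by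
      have : a ≠ j0 := fun h => ha (h ▸ hj0)
      simp [this])
    have h' := congrFun this j0
    simp at h'
  · let L : (J → ZMod 2) →ₗ[ZMod 2] (↥(W.erase w0) → ZMod 2) :=
      { toFun := fun z v => ∑ j : J, z j * S v.1 j.1
        map_add' := by
          intro x y
          funext v
          simp only [Pi.add_apply, add_mul, Finset.sum_add_distrib]
        map_smul' := by
          intro c x
          funext v
          simp only [Pi.smul_apply, smul_eq_mul, RingHom.id_apply, Finset.mul_sum, mul_assoc] }
    have hdim : Module.finrank (ZMod 2) (↥(W.erase w0) → ZMod 2)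
        < Module.finrank (ZMod 2) (J → ZMod 2) := by
      rw [Module.finrank_fintype_fun_eq_card, Module.finrank_fintype_fun_eq_card,
        Fintype.card_coe, Fintype.card_coe, Finset.card_erase_of_mem hw0]
      have : 0 < W.card := Finset.card_pos.2 ⟨w0, hw0⟩
      omega
    have hker := LinearMap.ker_ne_bot_of_finrank_lt (f := L) hdim
    obtain ⟨z, hz, hz0⟩ := Submodule.exists_mem_ne_zero_of_ne_bot hker
    rw [LinearMap.mem_ker] at hz
    let x : α → ZMod 2 := fun a => if h : a ∈ J then z ⟨a, h⟩ else 0
    have hxJ : ∀ a, a ∉ J → x a = 0 := fun a ha => by simp [x, ha]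
    have hxsum : ∀ v, ∑ a ∈ N.E, x a * S v a = ∑ j : J, z j * S v j.1 := by
      intro v
      rw [← Finset.sum_subset hJE (fun a _ ha => by simp [hxJ a ha])]
      rw [← Finset.sum_coe_sort J]
      refine Finset.sum_congr rfl fun j _ => ?_
      simp [x]
    have hxv : ∀ v, v ≠ w0 → ∑ a ∈ N.E, x a * S v a = 0 := by
      intro v hv
      by_cases hvW : v ∈ W
      · rw [hxsum]
        have := congrFun hz ⟨v, Finset.mem_erase.2 ⟨hv, hvW⟩⟩
        exact this
      · have : S v = 0 := by
          by_contra h
          exact hvW (Finset.mem_filter.2 ⟨Finset.mem_univ _, h⟩)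
        simp [this]
    have hxw : ∑ a ∈ N.E, x a * S w0 a = 0 := by
      have htot : ∑ v, ∑ a ∈ N.E, x a * S v a = 0 := by
        rw [Finset.sum_comm]
        refine Finset.sum_eq_zero fun a _ => ?_
        rw [← Finset.mul_sum, h4 a, mul_zero]
      rw [← Finset.add_sum_erase _ _ (Finset.mem_univ w0),
        Finset.sum_eq_zero (fun v hv => hxv v (Finset.ne_of_mem_erase hv)), add_zero] at htot
      exact htot
    have hx : x ∈ N.cycles := by
      rw [h2 x (fun a ha => hxJ a (fun h => ha (hJE h)))]
      intro v
      by_cases hv : v = w0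
      · rw [hv]; exact hxw
      · exact hxv v hv
    have hx0 := hJ x hx hxJ
    apply hz0
    funext j
    have := congrFun hx0 j.1
    simpa [x] using this


theorem mem_cycle_iff (L : List (ℕ × ℕ)) (n : ℕ) (hL : ∀ e ∈ L, e.1 < n ∧ e.2 < n)
    (x : ℕ → ZMod 2) (hx : ∀ a, a ∉ Finset.range L.length → x a = 0) :
    x ∈ (cycleMatroid L).cycles ↔
      ∀ v < n, ∑ a ∈ Finset.range L.length, x a * inc (L.getD a (0, 0)) v = 0 := by
  constructor
  · intro h v _
    exact h.2 v
  · intro h
    refine ⟨hx, fun v => ?_⟩
    by_cases hv : v < n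
    · exact h v hv
    · refine Finset.sum_eq_zero fun a ha => ?_
      have hlt : a < L.length := Finset.mem_range.1 ha
      have hmem : L.getD a (0, 0) ∈ L := by
        rw [List.getD_eq_getElem _ _ hlt]
        exact List.getElem_mem hlt
      obtain ⟨h1, h2⟩ := hL _ hmem
      have e1 : (L.getD a (0, 0)).1 ≠ v := by omega
      have e2 : (L.getD a (0, 0)).2 ≠ v := by omega
      simp only [inc, if_neg e1, if_neg e2, add_zero, mul_zero]

theorem cycleMatroid_graphic (L : List (ℕ × ℕ)) (n : ℕ) (hL : ∀ e ∈ L, e.1 < n ∧ e.2 < n)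
    (h2 : ∀ a < L.length, (Finset.univ.filter
      (fun v : Fin n => inc (L.getD a (0, 0)) v.1 ≠ 0)).card ≤ 2)
    (h0 : ∀ a < L.length, ∑ v : Fin n, inc (L.getD a (0, 0)) v.1 = 0) :
    Graphic (cycleMatroid L) := by
  have hE : (cycleMatroid L).E = Finset.range L.length := rfl
  refine ⟨n, fun v a => if a < L.length then inc (L.getD a (0, 0)) v.1 else 0, ?_, ?_, ?_, ?_⟩
  · intro v a ha
    rw [hE, Finset.mem_range] at ha
    simp [ha]
  · intro x hx
    rw [mem_cycle_iff L n hL x hx, hE]
    have e : ∀ v : ℕ, ∑ a ∈ Finset.range L.length, x a * (if a < L.length then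
        inc (L.getD a (0, 0)) v else 0) =
        ∑ a ∈ Finset.range L.length, x a * inc (L.getD a (0, 0)) v := by
      intro v
      refine Finset.sum_congr rfl fun a ha => ?_
      rw [if_pos (Finset.mem_range.1 ha)]
    constructor
    · intro h v
      rw [e]
      exact h v.1 v.2
    · intro h v hv
      rw [← e]
      exact h ⟨v, hv⟩
  · intro a
    by_cases ha : a < L.length
    · simpa only [ha, if_true] using h2 a ha
    · simp [ha]
  · intro a
    by_cases ha : a < L.length
    · simpa only [ha, if_true] using h0 a ha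
    · simp [ha]

theorem Trap_graphic : Graphic Trap := by
  refine cycleMatroid_graphic _ 10 ?_ ?_ ?_
  · decide
  · decide
  · decide

/-! ### `F*` is not graphic -/

theorem mem_Fstar (z : ℕ → ZMod 2) :
    z ∈ Fstar.cycles ↔ (∀ a, a ∉ Finset.range 7 → z a = 0) ∧
      ∀ l ∈ fanoLines, ∑ a ∈ Finset.range 7, indic l a * z a = 0 := by
  constructor
  · rintro ⟨h1, h2⟩
    exact ⟨h1, fun l hl => h2 _ (Submodule.subset_span ⟨l, hl, rfl⟩)⟩
  · rintro ⟨h1, h2⟩
    refine ⟨h1, fun x hx => ?_⟩
    have hx' : x ∈ Submodule.span (ZMod 2) {x | ∃ l ∈ fanoLines, x = indic l} := hx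
    show ∑ a ∈ Finset.range 7, x a * z a = 0
    clear hx
    induction hx' using Submodule.span_induction with
    | mem x h =>
      obtain ⟨l, hl, rfl⟩ := h
      exact h2 l hl
    | zero => simp
    | add x y _ _ hx hy => simp only [Pi.add_apply, add_mul, Finset.sum_add_distrib, hx, hy, add_zero]
    | smul c x _ hx =>
      simp only [Pi.smul_apply, smul_eq_mul, mul_assoc]
      rw [← Finset.mul_sum, hx, mul_zero]

theorem Fstar_not_graphic : ¬ Graphic Fstar := by
  have hmem : ∀ w ∈ [[2,4,5,6],[0,3,5,6],[0,1,4,6],[0,1,2,5],[1,2,3,6],[0,2,3,4],[1,3,4,5]],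
      indic w ∈ Fstar.cycles := by
    intro w hw
    rw [mem_Fstar]
    constructor
    · intro a ha
      have h7 : ∀ w ∈ [[2,4,5,6],[0,3,5,6],[0,1,4,6],[0,1,2,5],[1,2,3,6],[0,2,3,4],[1,3,4,5]],
        ∀ b ∈ w, b < 7 := by decide
      have : a ∉ w := fun h => ha (Finset.mem_range.2 (h7 w hw a h))
      simp [indic, this]
    · revert w
      decide
  refine not_graphic Fstar {3,4,5,6} ?_ ?_ ?_ ?_ ?_ ?_
  · show ({3,4,5,6} : Finset ℕ) ⊆ Finset.range 7
    decide
  · exact ⟨3, by simp⟩
  · intro a ha
    have ha' : a < 7 := Finset.mem_range.1 ha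
    have key : ∀ a < 7, ∃ w ∈ [[2,4,5,6],[0,3,5,6],[0,1,4,6],[0,1,2,5],[1,2,3,6],[0,2,3,4],[1,3,4,5]],
      indic w a ≠ 0 := by decide
    obtain ⟨w, hw, h⟩ := key a ha'
    exact ⟨_, hmem w hw, h⟩
  · intro a ha b hb hab
    have ha' : a < 7 := Finset.mem_range.1 ha
    have hb' : b < 7 := Finset.mem_range.1 hb
    have key : ∀ a < 7, ∀ b < 7, a ≠ b →
      ∃ w ∈ [[2,4,5,6],[0,3,5,6],[0,1,4,6],[0,1,2,5],[1,2,3,6],[0,2,3,4],[1,3,4,5]],
      indic w a ≠ indic w b := by decide
    obtain ⟨w, hw, h⟩ := key a ha' b hb' hab
    exact ⟨_, hmem w hw, h⟩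
  · intro x hx hJ
    rw [mem_Fstar] at hx
    obtain ⟨h1, h2⟩ := hx
    have z0 : x 0 = 0 := hJ 0 (by decide)
    have z1 : x 1 = 0 := hJ 1 (by decide)
    have z2 : x 2 = 0 := hJ 2 (by decide)
    have e3 := h2 [0,1,3] (by decide)
    have e4 := h2 [1,2,4] (by decide)
    have e5 := h2 [4,5,0] (by decide)
    have e6 := h2 [6,0,2] (by decide)
    simp [Finset.sum_range_succ, indic, z0, z1, z2] at e3 e4 e5 e6
    rw [e4, zero_add] at e5
    funext a
    by_cases ha : a < 7
    · interval_cases a
      · exact z0
      · exact z1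
      · exact z2
      · exact e3
      · exact e4
      · exact e5
      · exact e6
    · exact h1 a (by simpa using ha)
  · show 2 * (Finset.range 7).card < 3 * (({3,4,5,6} : Finset ℕ).card + 1)
    decide

/-! ### `K₅*` is not graphic -/

theorem K5star_not_graphic : ¬ Graphic K5star := by
  set L : List (ℕ × ℕ) := [(0,1),(0,2),(0,3),(0,4),(1,2),(1,3),(1,4),(2,3),(2,4),(3,4)] with hL
  have hE : K5star.E = Finset.range 10 := rfl
  have hstar : ∀ v : ℕ, (fun a => if a < 10 then inc (L.getD a (0,0)) v else 0) ∈
      K5star.cycles := by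
    intro v
    refine ⟨?_, ?_⟩
    · intro a ha
      have : ¬ a < 10 := fun h => ha (Finset.mem_range.2 h)
      simp [this]
    · intro x hx
      refine Eq.trans ?_ (hx.2 v)
      refine Finset.sum_congr rfl fun a ha => ?_
      have ha' : a < 10 := Finset.mem_range.1 ha
      simp only [ha', if_true]
      rfl
  have htri : ∀ l ∈ [[0,1,4],[0,2,5],[0,3,6],[1,2,7],[1,3,8],[2,3,9]],
      indic l ∈ (cycleMatroid L).cycles := by
    intro l hl
    rw [mem_cycle_iff L 5 (by decide)]
    · revert l
      decide
    · intro a ha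
      have h10 : ∀ l ∈ [[0,1,4],[0,2,5],[0,3,6],[1,2,7],[1,3,8],[2,3,9]], ∀ b ∈ l, b < 10 := by
        decide
      have : a ∉ l := fun h => ha (Finset.mem_range.2 (h10 l hl a h))
      simp [indic, this]
  refine not_graphic K5star {4,5,6,7,8,9} ?_ ?_ ?_ ?_ ?_ ?_
  · rw [hE]
    decide
  · exact ⟨4, by simp⟩
  · intro a ha
    have ha' : a < 10 := Finset.mem_range.1 ha
    have key : ∀ a < 10, ∃ v < 5, (if a < 10 then inc (L.getD a (0,0)) v else 0) ≠ 0 := by
      decide
    obtain ⟨v, _, h⟩ := key a ha'
    exact ⟨_, hstar v, h⟩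
  · intro a ha b hb hab
    have ha' : a < 10 := Finset.mem_range.1 ha
    have hb' : b < 10 := Finset.mem_range.1 hb
    have key : ∀ a < 10, ∀ b < 10, a ≠ b → ∃ v < 5,
      (if a < 10 then inc (L.getD a (0,0)) v else 0) ≠
        (if b < 10 then inc (L.getD b (0,0)) v else 0) := by
      decide
    obtain ⟨v, _, h⟩ := key a ha' b hb' hab
    exact ⟨_, hstar v, h⟩
  · intro x hx hJ
    have h1 := hx.1
    have h2 : ∀ l ∈ [[0,1,4],[0,2,5],[0,3,6],[1,2,7],[1,3,8],[2,3,9]],
      ∑ a ∈ Finset.range 10, indic l a * x a = 0 := fun l hl => hx.2 _ (htri l hl)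
    have z0 : x 0 = 0 := hJ 0 (by decide)
    have z1 : x 1 = 0 := hJ 1 (by decide)
    have z2 : x 2 = 0 := hJ 2 (by decide)
    have z3 : x 3 = 0 := hJ 3 (by decide)
    have e4 := h2 [0,1,4] (by decide)
    have e5 := h2 [0,2,5] (by decide)
    have e6 := h2 [0,3,6] (by decide)
    have e7 := h2 [1,2,7] (by decide)
    have e8 := h2 [1,3,8] (by decide)
    have e9 := h2 [2,3,9] (by decide)
    simp [Finset.sum_range_succ, indic, z0, z1, z2, z3] at e4 e5 e6 e7 e8 e9
    funext a
    by_cases ha : a < 10
    · interval_cases a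
      · exact z0
      · exact z1
      · exact z2
      · exact z3
      · exact e4
      · exact e5
      · exact e6
      · exact e7
      · exact e8
      · exact e9
    · exact h1 a (fun h => ha (Finset.mem_range.1 h))
  · rw [hE]
    decide

theorem not_hasMinor_of_graphic {M : BinMatroid α} {N : BinMatroid β} (hM : Graphic M)
    (hN : ¬ Graphic N) : ¬ HasMinor M N := by
  rintro ⟨M', h1, h2⟩
  exact hN ((hM.minor h1).iso h2)


/-! ### Explicit cycle spaces -/

/-- The vector of a bit mask. -/
def vec (w : ℕ) : ℕ → ZMod 2 := fun a => if w.testBit a then 1 else 0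

theorem vec_xor (a b : ℕ) : vec (a ^^^ b) = vec a + vec b := by
  funext i
  simp only [vec, Nat.testBit_xor, Pi.add_apply]
  cases a.testBit i <;> cases b.testBit i <;> decide

theorem vec_zero : vec 0 = 0 := by
  funext i
  simp [vec]

/-- All XOR combinations of a list of masks. -/
def words : List ℕ → List ℕ
  | [] => [0]
  | a :: l => words l ++ (words l).map (a ^^^ ·)

theorem words_vec (l : List ℕ) (p : (ℕ → ZMod 2) → Prop) (h0 : p 0)
    (hadd : ∀ x y, p x → p y → p (x + y)) (hl : ∀ h ∈ l, p (vec h)) :
    ∀ w ∈ words l, p (vec w) := by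
  induction l with
  | nil =>
    intro w hw
    simp only [words, List.mem_singleton] at hw
    rw [hw, vec_zero]
    exact h0
  | cons a l ih =>
    intro w hw
    have ih' := ih (fun h hh => hl h (List.mem_cons_of_mem _ hh))
    simp only [words, List.mem_append, List.mem_map] at hw
    rcases hw with hw | ⟨w', hw', rfl⟩
    · exact ih' w hw
    · rw [vec_xor]
      exact hadd _ _ (hl a List.mem_cons_self) (ih' w' hw')

/-- `M` has ground set `{0,…,m-1}` and its cycles are exactly the vectors of the masks in
`words g`. -/
structure Rep (M : BinMatroid ℕ) (m : ℕ) (g : List ℕ) : Prop where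
  hE : M.E = Finset.range m
  lt : ∀ w ∈ words g, w < 2 ^ m
  mem : ∀ w ∈ words g, vec w ∈ M.cycles
  span : ∀ x ∈ M.cycles, ∃ w ∈ words g, x = vec w
  nodup : (words g).Nodup

theorem span_of_diag (C : Submodule (ZMod 2) (ℕ → ZMod 2)) (gc : List (ℕ × ℕ))
    (hmem : ∀ p ∈ gc, vec p.1 ∈ C)
    (hd : ∀ p ∈ gc, ∀ q ∈ gc, p.1.testBit q.2 = decide (p.2 = q.2))
    (h0 : ∀ x ∈ C, (∀ p ∈ gc, x p.2 = 0) → x = 0) :
    ∀ x ∈ C, ∃ w ∈ words (gc.map Prod.fst), x = vec w := by
  have key : ∀ l : List (ℕ × ℕ), (∀ p ∈ l, p ∈ gc) → ∀ x ∈ C,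
      (∀ p ∈ gc, p ∈ l ∨ x p.2 = 0) → ∃ w ∈ words (l.map Prod.fst), x = vec w := by
    intro l
    induction l with
    | nil =>
      intro _ x hx h
      refine ⟨0, by simp [words], ?_⟩
      rw [vec_zero]
      refine h0 x hx fun p hp => ?_
      rcases h p hp with h | h
      · simp at h
      · exact h
    | cons q l ih =>
      intro hsub x hx h
      have hq : q ∈ gc := hsub q List.mem_cons_self
      have hsub' : ∀ p ∈ l, p ∈ gc := fun p hp => hsub p (List.mem_cons_of_mem _ hp)
      rcases zmod2_cases (x q.2) with hx0 | hx1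
      · obtain ⟨w, hw, hxw⟩ := ih hsub' x hx (fun p hp => by
          rcases h p hp with h | h
          · rcases List.mem_cons.1 h with h | h
            · right; rw [h]; exact hx0
            · left; exact h
          · right; exact h)
        refine ⟨w, ?_, hxw⟩
        simp only [List.map_cons, words, List.mem_append]
        left; exact hw
      · obtain ⟨w, hw, hxw⟩ := ih hsub' (x + vec q.1) (C.add_mem hx (hmem q hq)) (fun p hp => by
          by_cases hpq : p.2 = q.2
          · right
            have : vec q.1 p.2 = 1 := by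
              simp only [vec]
              rw [hd q hq p hp]
              simp [hpq]
            rw [Pi.add_apply, this, hpq, hx1]
            decide
          · have hv : vec q.1 p.2 = 0 := by
              simp only [vec]
              rw [hd q hq p hp]
              have : q.2 ≠ p.2 := fun h => hpq h.symm
              simp [this]
            rcases h p hp with h | h
            · rcases List.mem_cons.1 h with h | h
              · exact absurd (by rw [h]) hpq
              · left; exact h
            · right
              rw [Pi.add_apply, hv, h, add_zero])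
        refine ⟨q.1 ^^^ w, ?_, ?_⟩
        · simp only [List.map_cons, words, List.mem_append, List.mem_map]
          right; exact ⟨w, hw, rfl⟩
        · rw [vec_xor, ← hxw]
          funext a
          have : (vec q.1 + (x + vec q.1)) a = x a + (vec q.1 a + vec q.1 a) := by
            simp only [Pi.add_apply]; ring
          rw [this, zmod2_add_self, add_zero]
  intro x hx
  exact key gc (fun p hp => hp) x hx (fun p hp => Or.inl hp)

def gT : List ℕ := [771, 13061, 13577, 21777, 22817, 39233, 36993]

def LT : List (ℕ × ℕ) := [(0,1),(1,2),(2,3),(3,4),(4,5),(5,6),(6,7),(7,0),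
   (8,0),(8,2),(8,4),(8,6),(9,1),(9,3),(9,5),(9,7)]

def gP : List ℕ := [31, 1187, 2374, 4748, 8487, 16974]

def LP : List (ℕ × ℕ) := [(0,1),(1,2),(2,3),(3,4),(4,0),
   (0,5),(1,6),(2,7),(3,8),(4,9),
   (5,7),(6,8),(7,9),(8,5),(9,6)]

theorem vec_mem_cycle (L : List (ℕ × ℕ)) (n : ℕ) (hL : ∀ e ∈ L, e.1 < n ∧ e.2 < n) (w : ℕ)
    (hw : w < 2 ^ L.length)
    (h : ∀ v < n, ∑ a ∈ Finset.range L.length, vec w a * inc (L.getD a (0, 0)) v = 0) :
    vec w ∈ (cycleMatroid L).cycles := by
  rw [mem_cycle_iff L n hL]
  · exact h
  · intro a ha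
    have ha' : L.length ≤ a := by simpa using ha
    have : w.testBit a = false := Nat.testBit_lt_two_pow (lt_of_lt_of_le hw
      (Nat.pow_le_pow_right (by norm_num) ha'))
    simp [vec, this]

set_option maxRecDepth 100000 in
theorem rep_Trap : Rep Trap 16 gT := by
  have hgen : ∀ w ∈ gT, vec w ∈ Trap.cycles := by
    intro w hw
    refine vec_mem_cycle _ 10 (by decide) w ?_ ?_
    · revert w; decide
    · revert w; decide
  refine ⟨rfl, by decide +kernel, ?_, ?_, by decide +kernel⟩
  · exact words_vec gT (fun x => x ∈ Trap.cycles) (Submodule.zero_mem _)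
      (fun x y hx hy => Submodule.add_mem _ hx hy) hgen
  · have := span_of_diag Trap.cycles
      [(771,1), (13061,2), (13577,3), (21777,4), (22817,5), (39233,6), (36993,7)]
      (by
        intro p hp
        refine hgen p.1 ?_
        revert p
        decide)
      (by decide)
      (by
        intro x hx h
        have z1 : x 1 = 0 := h (771,1) (by decide)
        have z2 : x 2 = 0 := h (13061,2) (by decide)
        have z3 : x 3 = 0 := h (13577,3) (by decide)
        have z4 : x 4 = 0 := h (21777,4) (by decide)
        have z5 : x 5 = 0 := h (22817,5) (by decide)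
        have z6 : x 6 = 0 := h (39233,6) (by decide)
        have z7 : x 7 = 0 := h (36993,7) (by decide)
        have e2 := hx.2 2
        have e4 := hx.2 4
        have e6 := hx.2 6
        have e3 := hx.2 3
        have e5 := hx.2 5
        have e7 := hx.2 7
        have e8 := hx.2 8
        have e9 := hx.2 9
        have e0 := hx.2 0
        simp [Finset.sum_range_succ, inc, z1, z2, z3, z4, z5, z6, z7] at e2 e4 e6 e3 e5 e7 e8 e9 e0
        simp [e2, e4, e6, e3, e5, e7] at e8 e9
        simp [e8] at e0
        funext a
        by_cases ha : a < 16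
        · interval_cases a <;> first | assumption
        · exact hx.1 a (fun h => ha (Finset.mem_range.1 h)))
    exact this

set_option maxRecDepth 100000 in
theorem rep_Pet : Rep Pet 15 gP := by
  have hgen : ∀ w ∈ gP, vec w ∈ Pet.cycles := by
    intro w hw
    refine vec_mem_cycle _ 10 (by decide) w ?_ ?_
    · revert w; decide
    · revert w; decide
  refine ⟨rfl, by decide +kernel, ?_, ?_, by decide +kernel⟩
  · exact words_vec gP (fun x => x ∈ Pet.cycles) (Submodule.zero_mem _)
      (fun x y hx hy => Submodule.add_mem _ hx hy) hgen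
  · have := span_of_diag Pet.cycles
      [(31,4), (1187,10), (2374,11), (4748,12), (8487,13), (16974,14)]
      (by
        intro p hp
        refine hgen p.1 ?_
        revert p
        decide)
      (by decide)
      (by
        intro x hx h
        have z1 : x 4 = 0 := h (31,4) (by decide)
        have z2 : x 10 = 0 := h (1187,10) (by decide)
        have z3 : x 11 = 0 := h (2374,11) (by decide)
        have z4 : x 12 = 0 := h (4748,12) (by decide)
        have z5 : x 13 = 0 := h (8487,13) (by decide)
        have z6 : x 14 = 0 := h (16974,14) (by decide)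
        have e5 := hx.2 5
        have e6 := hx.2 6
        have e7 := hx.2 7
        have e8 := hx.2 8
        have e9 := hx.2 9
        have e0 := hx.2 0
        have e1 := hx.2 1
        have e2 := hx.2 2
        have e3 := hx.2 3
        simp [Finset.sum_range_succ, inc, z1, z2, z3, z4, z5, z6] at e5 e6 e7 e8 e9 e0 e1 e2 e3
        simp [e5] at e0
        simp [e0, e6] at e1
        simp [e1, e7] at e2
        simp [e2, e8] at e3
        funext a
        by_cases ha : a < 15
        · interval_cases a <;> first | assumption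
        · exact hx.1 a (fun h => ha (Finset.mem_range.1 h)))
    exact this


/-! ### Truth tables of Boolean functions of a subset of `{0,…,n-1}` -/

/-- index of a subset -/
def idx (A : Finset ℕ) : ℕ := ∑ i ∈ A, 2 ^ i

theorem idx_lt (n : ℕ) (A : Finset ℕ) (hA : A ⊆ Finset.range n) : idx A < 2 ^ n := by
  have h1 : idx A ≤ ∑ i ∈ Finset.range n, 2 ^ i :=
    Finset.sum_le_sum_of_subset hA
  have h2 : ∀ n : ℕ, ∑ i ∈ Finset.range n, 2 ^ i < 2 ^ n := by
    intro n
    induction n with
    | zero => simp
    | succ n ih => rw [Finset.sum_range_succ, pow_succ]; omega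
  exact lt_of_le_of_lt h1 (h2 n)

theorem idx_insert (n : ℕ) (A : Finset ℕ) (hA : A ⊆ Finset.range n) :
    idx (insert n A) = 2 ^ n + idx A := by
  have : n ∉ A := fun h => by simpa using hA h
  rw [idx, Finset.sum_insert this]
  rfl

/-- truth table of the variable `e` on `n` variables -/
def V : ℕ → ℕ → ℕ
  | 0, _ => 0
  | n+1, e => if e = n then 2^(2^n) * (2^(2^n) - 1) + 0 else 2^(2^n) * V n e + V n e

theorem V_lt (n e : ℕ) : V n e < 2 ^ (2 ^ n) := by
  induction n with
  | zero => simp [V]
  | succ n ih =>
    have hp : 2 ^ (2 ^ (n + 1)) = 2 ^ (2 ^ n) * 2 ^ (2 ^ n) := by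
      rw [← pow_add]; congr 1; rw [pow_succ]; ring
    have hpos : 0 < 2 ^ (2 ^ n) := by positivity
    unfold V
    split_ifs
    · rw [hp, add_zero]
      exact Nat.mul_lt_mul_of_pos_left (by omega) hpos
    · rw [hp]
      have : 2 ^ (2 ^ n) * V n e + V n e < 2 ^ (2 ^ n) * V n e + 2 ^ (2 ^ n) := by omega
      have h2 : 2 ^ (2 ^ n) * V n e + 2 ^ (2 ^ n) = 2 ^ (2 ^ n) * (V n e + 1) := by ring
      rw [h2] at this
      exact lt_of_lt_of_le this (Nat.mul_le_mul_left _ ih)

theorem V_testBit (n : ℕ) : ∀ (A : Finset ℕ), A ⊆ Finset.range n → ∀ e < n,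
    (V n e).testBit (idx A) = decide (e ∈ A) := by
  induction n with
  | zero => intro A _ e he; omega
  | succ n ih =>
    intro A hA e he
    by_cases hn : n ∈ A
    · have hA' : A.erase n ⊆ Finset.range n := by
        intro a ha
        have h1 := hA (Finset.mem_of_mem_erase ha)
        have h2 := Finset.ne_of_mem_erase ha
        simp only [Finset.mem_range] at h1 ⊢
        omega
      have hidx : idx A = 2 ^ n + idx (A.erase n) := by
        rw [← idx_insert n _ hA', Finset.insert_erase hn]
      rw [hidx]
      unfold V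
      split_ifs with hen
      · rw [Nat.testBit_two_pow_mul_add _ (by positivity)]
        rw [if_neg (by omega), Nat.add_sub_cancel_left, Nat.testBit_two_pow_sub_one]
        simp [hen, hn, idx_lt n _ hA']
      · rw [Nat.testBit_two_pow_mul_add _ (V_lt n e)]
        rw [if_neg (by omega), Nat.add_sub_cancel_left, ih _ hA' e (by omega)]
        simp [hen]
    · have hA' : A ⊆ Finset.range n := by
        intro a ha
        have h1 := hA ha
        have h2 : a ≠ n := fun h => hn (h ▸ ha)
        simp only [Finset.mem_range] at h1 ⊢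
        omega
      have hlt := idx_lt n A hA'
      unfold V
      split_ifs with hen
      · rw [Nat.testBit_two_pow_mul_add _ (by positivity), if_pos hlt]
        simp [hen, hn]
      · rw [Nat.testBit_two_pow_mul_add _ (V_lt n e), if_pos hlt, ih A hA' e (by omega)]

def Lx (m w : ℕ) : ℕ → ℕ
  | 0 => 0
  | e+1 => if w.testBit e then Lx m w e ^^^ V m e else Lx m w e

theorem Lx_succ (m w e : ℕ) :
    Lx m w (e+1) = if w.testBit e then Lx m w e ^^^ V m e else Lx m w e := rfl

theorem Lx_testBit (m w : ℕ) (A : Finset ℕ) (hA : A ⊆ Finset.range m) (k : ℕ) (hk : k ≤ m) :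
    (if (Lx m w k).testBit (idx A) then (1 : ZMod 2) else 0) =
      ∑ e ∈ Finset.range k, if w.testBit e ∧ e ∈ A then (1 : ZMod 2) else 0 := by
  induction k with
  | zero => simp [Lx]
  | succ k ih =>
    rw [Finset.sum_range_succ, ← ih (by omega), Lx_succ]
    by_cases hw : w.testBit k
    · simp only [hw, if_true, Nat.testBit_xor, V_testBit m A hA k (by omega), true_and]
      by_cases hkA : k ∈ A
      · cases (Lx m w k).testBit (idx A)
        · simp [hkA]
        · simp only [hkA, decide_true, Bool.xor_self, Bool.false_eq_true, if_false, if_true]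
          decide
      · simp [hkA]
    · simp [hw]

def Zt (m w : ℕ) : List ℕ → ℕ
  | [] => 2^(2^m) - 1
  | h :: t => ((2^(2^m) - 1) ^^^ Lx m (w &&& h) m) &&& Zt m w t

theorem Zt_cons (m w h : ℕ) (t : List ℕ) :
    Zt m w (h :: t) = ((2^(2^m) - 1) ^^^ Lx m (w &&& h) m) &&& Zt m w t := rfl

theorem Zt_testBit (m w : ℕ) (A : Finset ℕ) (hA : A ⊆ Finset.range m) (g : List ℕ) :
    (Zt m w g).testBit (idx A) = true ↔
      ∀ h ∈ g, ∑ e ∈ Finset.range m, (if (w &&& h).testBit e ∧ e ∈ A then (1 : ZMod 2) else 0)
        = 0 := by
  have hlt := idx_lt m A hA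
  induction g with
  | nil => simp [Zt, Nat.testBit_two_pow_sub_one, hlt]
  | cons h t ih =>
    rw [Zt_cons, Nat.testBit_and, Bool.and_eq_true, List.forall_mem_cons]
    refine and_congr ?_ ih
    rw [← Lx_testBit m (w &&& h) A hA m le_rfl, Nat.testBit_xor, Nat.testBit_two_pow_sub_one]
    cases (Lx m (w &&& h) m).testBit (idx A) <;> simp [hlt]

def Dt (m : ℕ) (g : List ℕ) : List ℕ → ℕ
  | [] => 0
  | w :: t => if w = 0 then Dt m g t else Zt m w g ||| Dt m g t

theorem Dt_testBit (m : ℕ) (g : List ℕ) (i : ℕ) (ws : List ℕ) :
    (Dt m g ws).testBit i = true ↔ ∃ w ∈ ws, w ≠ 0 ∧ (Zt m w g).testBit i = true := by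
  induction ws with
  | nil => simp [Dt]
  | cons w t ih =>
    unfold Dt
    split_ifs with h
    · rw [ih]
      simp [h]
    · rw [Nat.testBit_or, Bool.or_eq_true, ih]
      simp [h]

/-- signed count -/
def cnt : ℕ → ℕ → Bool → ℕ
  | 0, t, p => if p then 0 else t % 2
  | n+1, t, p => if t = 0 then 0 else cnt n (t % 2^(2^n)) p + cnt n (t / 2^(2^n)) (!p)

theorem cnt_zero (n : ℕ) (p : Bool) : cnt n 0 p = 0 := by
  cases n <;> simp [cnt]

theorem cnt_spec (n : ℕ) : ∀ t : ℕ, t < 2 ^ (2 ^ n) →
    ∑ A ∈ (Finset.range n).powerset,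
      (if t.testBit (idx A) then (-1 : ℤ) ^ A.card else 0) = (cnt n t false : ℤ) - cnt n t true := by
  induction n with
  | zero =>
    intro t ht
    have : t = 0 ∨ t = 1 := by
      have : t < 2 := by simpa using ht
      omega
    rcases this with rfl | rfl <;> simp [cnt, idx]
  | succ n ih =>
    intro t ht
    have hp : 2 ^ (2 ^ (n + 1)) = 2 ^ (2 ^ n) * 2 ^ (2 ^ n) := by
      rw [← pow_add]; congr 1; rw [pow_succ]; ring
    have hpos : 0 < 2 ^ (2 ^ n) := by positivity
    by_cases ht0 : t = 0
    · subst ht0
      simp [cnt_zero]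
    · rw [Finset.range_add_one, Finset.sum_powerset_insert (by simp)]
      have e1 : ∑ A ∈ (Finset.range n).powerset,
          (if t.testBit (idx A) then (-1 : ℤ) ^ A.card else 0) =
          ∑ A ∈ (Finset.range n).powerset,
          (if (t % 2 ^ (2 ^ n)).testBit (idx A) then (-1 : ℤ) ^ A.card else 0) := by
        refine Finset.sum_congr rfl fun A hA => ?_
        have hlt := idx_lt n A (Finset.mem_powerset.1 hA)
        rw [Nat.testBit_mod_two_pow]
        simp [hlt]
      have e2 : ∑ A ∈ (Finset.range n).powerset,
          (if t.testBit (idx (insert n A)) then (-1 : ℤ) ^ (insert n A).card else 0) =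
          - ∑ A ∈ (Finset.range n).powerset,
          (if (t / 2 ^ (2 ^ n)).testBit (idx A) then (-1 : ℤ) ^ A.card else 0) := by
        rw [← Finset.sum_neg_distrib]
        refine Finset.sum_congr rfl fun A hA => ?_
        have hA' := Finset.mem_powerset.1 hA
        have hn : n ∉ A := fun h => by simpa using hA' h
        rw [idx_insert n A hA', Nat.testBit_div_two_pow, Finset.card_insert_of_notMem hn,
          add_comm (2 ^ n) (idx A)]
        split_ifs
        · rw [pow_succ]; ring
        · simp
      rw [e1, e2, ih _ (Nat.mod_lt _ hpos), ih _ (by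
        rw [Nat.div_lt_iff_lt_mul hpos, ← hp]; exact ht)]
      simp only [cnt, ht0, if_false, Bool.not_false, Bool.not_true]
      push_cast
      ring

theorem Zt_lt (m w : ℕ) (g : List ℕ) : Zt m w g < 2 ^ (2 ^ m) := by
  cases g with
  | nil => simp [Zt]
  | cons h t =>
    induction t generalizing h with
    | nil =>
      unfold Zt
      refine lt_of_le_of_lt Nat.and_le_right ?_
      simp [Zt]
    | cons h' t ih =>
      unfold Zt
      exact lt_of_le_of_lt Nat.and_le_right (ih h')

theorem Dt_lt (m : ℕ) (g ws : List ℕ) : Dt m g ws < 2 ^ (2 ^ m) := by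
  induction ws with
  | nil => simp [Dt]
  | cons w t ih =>
    unfold Dt
    split_ifs
    · exact ih
    · exact Nat.or_lt_two_pow (Zt_lt m w g) ih

theorem vec_eq_zero {w : ℕ} (h : vec w = 0) : w = 0 := by
  apply Nat.eq_of_testBit_eq
  intro i
  have := congrFun h i
  simp only [vec] at this
  rw [Nat.zero_testBit]
  by_contra hne
  simp only [Bool.not_eq_false] at hne
  rw [hne] at this
  simp at this

theorem Rep.bicycle_iff {M : BinMatroid ℕ} {m : ℕ} {g : List ℕ} (h : Rep M m g)
    (A : Finset ℕ) (hA : A ⊆ Finset.range m) (hg : ∀ w ∈ g, w ∈ words g) :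
    bicycle M A = ⊥ ↔ ¬ (Dt m g (words g)).testBit (idx A) = true := by
  have hsum : ∀ w h' : ℕ, ∑ a ∈ M.E, vec h' a * restr A (vec w) a =
      ∑ e ∈ Finset.range m, (if (w &&& h').testBit e ∧ e ∈ A then (1 : ZMod 2) else 0) := by
    intro w h'
    rw [h.hE]
    refine Finset.sum_congr rfl fun a _ => ?_
    simp only [vec, restr_apply, Nat.testBit_and]
    by_cases hAa : a ∈ A
    · cases w.testBit a <;> cases h'.testBit a <;> simp [hAa]
    · simp [hAa]
  rw [← not_iff_not, not_not, Dt_testBit]
  constructor
  · intro hne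
    obtain ⟨x, hx, hx0⟩ := Submodule.exists_mem_ne_zero_of_ne_bot hne
    obtain ⟨hx1, hx2⟩ := hx
    obtain ⟨w, hw, rfl⟩ := h.span x hx1
    refine ⟨w, hw, ?_, ?_⟩
    · rintro rfl
      exact hx0 vec_zero
    · rw [Zt_testBit m w A hA]
      intro h' hh'
      rw [← hsum]
      exact hx2.2 _ (h.mem h' (hg h' hh'))
  · rintro ⟨w, hw, hw0, hz⟩ hbot
    rw [Zt_testBit m w A hA] at hz
    have hmem : vec w ∈ bicycle M A := by
      refine ⟨h.mem w hw, ?_, ?_⟩
      · intro a ha
        have : a ∉ A := fun hh => ha (by rw [h.hE]; exact hA hh)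
        simp [restr_apply, this]
      · intro x hx
        obtain ⟨w', hw', rfl⟩ := h.span x hx
        refine words_vec g (fun y => ∑ a ∈ M.E, y a * restr A (vec w) a = 0) (by simp) ?_ ?_ w' hw'
        · intro x y hx hy
          simp only [Pi.add_apply, add_mul, Finset.sum_add_distrib, hx, hy, add_zero]
        · intro h' hh'
          rw [hsum]
          exact hz h' hh'
    rw [hbot, Submodule.mem_bot] at hmem
    exact hw0 (vec_eq_zero hmem)

theorem words_length (g : List ℕ) : (words g).length = 2 ^ g.length := by
  induction g with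
  | nil => simp [words]
  | cons a l ih => simp [words, ih, pow_succ]; ring

theorem Rep.finite {M : BinMatroid ℕ} {m : ℕ} {g : List ℕ} (h : Rep M m g) :
    Finite M.cycles := by
  classical
  have : Set.Finite (M.cycles : Set (ℕ → ZMod 2)) := by
    refine Set.Finite.subset (((words g).map vec).toFinset.finite_toSet) ?_
    intro x hx
    obtain ⟨w, hw, rfl⟩ := h.span x hx
    simp only [List.coe_toFinset, Set.mem_ofPred_eq, List.mem_map]
    exact ⟨w, hw, rfl⟩
  exact this

theorem vec_inj {a b : ℕ} (h : vec a = vec b) : a = b := by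
  apply Nat.eq_of_testBit_eq
  intro i
  have := congrFun h i
  simp only [vec] at this
  cases ha : a.testBit i <;> cases hb : b.testBit i <;> simp [ha, hb] at this <;> rfl

theorem Rep.finrank {M : BinMatroid ℕ} {m : ℕ} {g : List ℕ} (h : Rep M m g) :
    Module.finrank (ZMod 2) M.cycles = g.length := by
  classical
  have := h.finite
  have hcard : Nat.card M.cycles = 2 ^ g.length := by
    have e : (M.cycles : Set (ℕ → ZMod 2)) = (((words g).map vec).toFinset : Set (ℕ → ZMod 2)) := by
      ext x
      simp only [List.coe_toFinset, Set.mem_ofPred_eq, List.mem_map]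
      constructor
      · intro hx
        obtain ⟨w, hw, rfl⟩ := h.span x hx
        exact ⟨w, hw, rfl⟩
      · rintro ⟨w, hw, rfl⟩
        exact h.mem w hw
    have e2 : Nat.card M.cycles = Nat.card ((M.cycles : Set (ℕ → ZMod 2)) : Type) := rfl
    rw [e2, e, Nat.card_coe_set_eq, Set.ncard_coe_finset, List.toFinset_card_of_nodup]
    · rw [List.length_map, words_length]
    · exact h.nodup.map (fun a b hab => vec_inj hab)
  have h2 := Module.natCard_eq_pow_finrank (K := ZMod 2) (V := M.cycles)
  rw [hcard, Nat.card_zmod] at h2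
  exact (Nat.pow_right_injective (le_refl 2) h2).symm

theorem Rep.coeff_zero {M : BinMatroid ℕ} {m : ℕ} {g : List ℕ} (h : Rep M m g)
    (hg : ∀ w ∈ g, w ∈ words g) (hm : 0 < m) :
    (penrose M).coeff 0 = (cnt m (Dt m g (words g)) true : ℤ) - cnt m (Dt m g (words g)) false := by
  have := h.finite
  have hfin : ∀ A, Module.Finite (ZMod 2) (bicycle M A) := by
    intro A
    have hf : Finite (bicycle M A) :=
      Finite.of_injective (Submodule.inclusion (inf_le_left : bicycle M A ≤ M.cycles))
        (Submodule.inclusion_injective _)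
    exact Module.Finite.of_finite
  have hco : (penrose M).coeff 0 = ∑ A ∈ (Finset.range m).powerset,
      ((-1 : ℤ) ^ A.card - if (Dt m g (words g)).testBit (idx A) then (-1 : ℤ) ^ A.card else 0) := by
    unfold penrose
    rw [Polynomial.finsetSum_coeff, h.hE]
    refine Finset.sum_congr rfl fun A hA => ?_
    have hA' := Finset.mem_powerset.1 hA
    rw [Polynomial.coeff_C_mul, Polynomial.coeff_X_pow]
    have hb := h.bicycle_iff A hA' hg
    have := hfin A
    by_cases hD : (Dt m g (words g)).testBit (idx A) = true
    · have hne : bicycle M A ≠ ⊥ := fun hh => (hb.1 hh) hD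
      have : Module.finrank (ZMod 2) (bicycle M A) ≠ 0 := by
        intro h0
        exact hne (Submodule.finrank_eq_zero.1 h0)
      rw [if_neg (Ne.symm this), if_pos hD]
      ring
    · have he : bicycle M A = ⊥ := hb.2 hD
      have : Module.finrank (ZMod 2) (bicycle M A) = 0 := by
        rw [he]; exact finrank_bot _ _
      rw [if_pos this.symm, if_neg hD]
      ring
  rw [hco, Finset.sum_sub_distrib, cnt_spec m _ (Dt_lt _ _ _),
    Finset.sum_powerset_neg_one_pow_card_of_nonempty (by
      rw [Finset.nonempty_range_iff]; omega)]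
  ring

theorem Trap_not_alternating : ¬ Alternating Trap := by
  intro h
  have h0 := h 0 (Nat.zero_le _)
  rw [rep_Trap.finrank, rep_Trap.coeff_zero (by decide) (by norm_num)] at h0
  have hc : (cnt 16 (Dt 16 gT (words gT)) false + 160 == cnt 16 (Dt 16 gT (words gT)) true) = true := by
    decide +kernel
  have hc' : cnt 16 (Dt 16 gT (words gT)) false + 160 = cnt 16 (Dt 16 gT (words gT)) true :=
    eq_of_beq hc
  have hl : gT.length = 7 := rfl
  rw [← hc', hl] at h0
  clear hc hc'
  generalize cnt 16 (Dt 16 gT (words gT)) false = c at h0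
  push_cast at h0
  omega

theorem Trap_bridgeless : Bridgeless Trap := by
  intro a ha
  have ha' : a < 16 := Finset.mem_range.1 ha
  have key : ∀ a < 16, ∃ w ∈ gT, vec w a ≠ 0 := by decide
  have hw' : ∀ w ∈ gT, w ∈ words gT := by decide
  obtain ⟨w, hw, h⟩ := key a ha'
  exact ⟨_, rep_Trap.mem w (hw' w hw), h⟩


/-! ### Excluding the Petersen graph and its one-edge contraction -/

theorem minor_form {M N : BinMatroid α} (h : IsMinor M N) :
    ∃ Z : Finset α, Z ⊆ M.E \ N.E ∧ ∀ y, y ∈ N.cycles ↔
      ∃ x ∈ M.cycles, (∀ a, a ∉ N.E → a ∉ Z → x a = 0) ∧ restr N.E x = y := by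
  induction h with
  | refl =>
    refine ⟨∅, by simp, fun y => ?_⟩
    have hr : ∀ x ∈ M.cycles, restr M.E x = x := by
      intro x hx
      funext a
      rw [restr_apply]
      split_ifs with h
      · rfl
      · exact (M.supp x hx a h).symm
    constructor
    · intro hy
      exact ⟨y, hy, fun a ha _ => M.supp y hy a ha, hr y hy⟩
    · rintro ⟨x, hx, _, rfl⟩
      rw [hr x hx]
      exact hx
  | @reduction N A hA hN ih =>
    obtain ⟨Z, hZ, hy⟩ := ih
    refine ⟨Z, ?_, fun y => ?_⟩
    · intro z hz
      have := Finset.mem_sdiff.1 (hZ hz)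
      exact Finset.mem_sdiff.2 ⟨this.1, fun h => this.2 (hA h)⟩
    · have hE : (N.reduction A).E = A := rfl
      rw [hE]
      constructor
      · rintro ⟨h1, h2⟩
        obtain ⟨x, hx, hx0, hxy⟩ := (hy y).1 h1
        refine ⟨x, hx, ?_, ?_⟩
        · intro a haA haZ
          by_cases haN : a ∈ N.E
          · have := congrFun hxy a
            rw [restr_apply, if_pos haN] at this
            rw [this]
            exact h2 a haA
          · exact hx0 a haN haZ
        · funext a
          rw [restr_apply]
          split_ifs with haA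
          · have := congrFun hxy a
            rw [restr_apply, if_pos (hA haA)] at this
            exact this
          · exact (h2 a haA).symm
      · rintro ⟨x, hx, hx0, rfl⟩
        refine ⟨(hy _).2 ⟨x, hx, fun a haN haZ => hx0 a (fun h => haN (hA h)) haZ, ?_⟩, ?_⟩
        · funext a
          rw [restr_apply, restr_apply]
          by_cases haA : a ∈ A
          · simp [haA, hA haA]
          · by_cases haN : a ∈ N.E
            · have haZ : a ∉ Z := fun h => (Finset.mem_sdiff.1 (hZ h)).2 haN
              simp [haA, hx0 a haA haZ]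
            · simp [haA, haN]
        · intro a ha
          simp [restr_apply, ha]
  | @contraction N A hA hN ih =>
    obtain ⟨Z, hZ, hy⟩ := ih
    have hNM := IsMinor.subset hN
    refine ⟨Z ∪ (N.E \ A), ?_, fun y => ?_⟩
    · intro z hz
      rcases Finset.mem_union.1 hz with hz | hz
      · have := Finset.mem_sdiff.1 (hZ hz)
        exact Finset.mem_sdiff.2 ⟨this.1, fun h => this.2 (hA h)⟩
      · have := Finset.mem_sdiff.1 hz
        exact Finset.mem_sdiff.2 ⟨hNM this.1, this.2⟩
    · have hE : (N.contraction A).E = A := rfl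
      rw [hE]
      constructor
      · rintro ⟨y', hy', rfl⟩
        obtain ⟨x, hx, hx0, hxy⟩ := (hy y').1 hy'
        refine ⟨x, hx, ?_, ?_⟩
        · intro a haA haZ
          rw [Finset.mem_union, not_or, Finset.mem_sdiff, not_and_not_right] at haZ
          exact hx0 a (fun h => haA (haZ.2 h)) haZ.1
        · rw [← hxy]
          funext a
          rw [restr_apply, restr_apply, restr_apply]
          by_cases haA : a ∈ A
          · simp [haA, hA haA]
          · simp [haA]
      · rintro ⟨x, hx, hx0, rfl⟩
        refine ⟨restr N.E x, (hy _).2 ⟨x, hx, ?_, rfl⟩, ?_⟩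
        · intro a haN haZ
          refine hx0 a (fun h => haN (hA h)) ?_
          rw [Finset.mem_union, not_or, Finset.mem_sdiff, not_and_not_right]
          exact ⟨haZ, fun h => absurd h haN⟩
        · funext a
          rw [restr_apply, restr_apply, restr_apply]
          by_cases haA : a ∈ A
          · simp [haA, hA haA]
          · simp [haA]

/-- number of elements of a vector in the ground set -/
def wt (M : BinMatroid α) (x : α → ZMod 2) : ℕ := (M.E.filter (fun a => x a ≠ 0)).card

theorem Iso.transport {M : BinMatroid α} {N : BinMatroid β} (h : Iso M N) (x : α → ZMod 2)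
    (hx : x ∈ M.cycles) : ∃ y ∈ N.cycles, wt N y = wt M x := by
  classical
  obtain ⟨f, hf, hc⟩ := h
  rcases M.E.eq_empty_or_nonempty with hE | ⟨a0, ha0⟩
  · exact ⟨0, N.cycles.zero_mem, by simp [wt, hE]⟩
  have : Nonempty α := ⟨a0⟩
  set g : β → α := Function.invFunOn f M.E with hg
  have hgf : ∀ a ∈ M.E, g (f a) = a := fun a ha => hf.injOn.leftInvOn_invFunOn ha
  refine ⟨fun b => if b ∈ N.E then x (g b) else 0, ?_, ?_⟩
  · rw [hc _ (fun b hb => by simp [hb])]
    have : (fun a => if a ∈ M.E then (if f a ∈ N.E then x (g (f a)) else 0) else 0) = x := by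
      funext a
      by_cases ha : a ∈ M.E
      · have hfa : f a ∈ N.E := hf.mapsTo ha
        rw [if_pos ha, if_pos hfa, hgf a ha]
      · rw [if_neg ha, M.supp x hx a ha]
    rw [this]
    exact hx
  · symm
    unfold wt
    refine Finset.card_nbij f ?_ ?_ ?_
    · intro a ha
      rw [Finset.mem_coe, Finset.mem_filter] at ha
      have hfa : f a ∈ N.E := hf.mapsTo ha.1
      rw [Finset.mem_coe, Finset.mem_filter]
      beta_reduce
      rw [if_pos hfa, hgf a ha.1]
      exact ⟨hfa, ha.2⟩
    · intro a ha b hb
      exact hf.injOn (Finset.mem_filter.1 ha).1 (Finset.mem_filter.1 hb).1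
    · intro b hb
      rw [Finset.mem_coe, Finset.mem_filter] at hb
      obtain ⟨a, ha, rfl⟩ := hf.surjOn hb.1
      beta_reduce at hb
      rw [if_pos hb.1, hgf a ha] at hb
      exact ⟨a, by rw [Finset.mem_coe, Finset.mem_filter]; exact ⟨ha, hb.2⟩, rfl⟩

theorem Iso.transport' {M : BinMatroid α} {N : BinMatroid β} (h : Iso M N) (y : β → ZMod 2)
    (hy : y ∈ N.cycles) : ∃ x ∈ M.cycles, wt M x = wt N y := by
  obtain ⟨f, hf, hc⟩ := h
  refine ⟨_, (hc y (N.supp y hy)).1 hy, ?_⟩
  unfold wt
  refine Finset.card_nbij f ?_ ?_ ?_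
  · intro a ha
    rw [Finset.mem_coe, Finset.mem_filter] at ha
    beta_reduce at ha
    rw [if_pos ha.1] at ha
    rw [Finset.mem_coe, Finset.mem_filter]
    exact ⟨hf.mapsTo ha.1, ha.2⟩
  · intro a ha b hb
    exact hf.injOn (Finset.mem_filter.1 ha).1 (Finset.mem_filter.1 hb).1
  · intro b hb
    rw [Finset.mem_coe, Finset.mem_filter] at hb
    obtain ⟨a, ha, rfl⟩ := hf.surjOn hb.1
    refine ⟨a, ?_, rfl⟩
    rw [Finset.mem_coe, Finset.mem_filter]
    beta_reduce
    rw [if_pos (Finset.mem_coe.1 ha)]
    exact ⟨ha, hb.2⟩

/-- The Petersen graph has girth 5. -/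
theorem Pet_wt (x : ℕ → ZMod 2) (hx : x ∈ Pet.cycles) : x = 0 ∨ 5 ≤ wt Pet x := by
  obtain ⟨w, hw, rfl⟩ := rep_Pet.span x hx
  have key : ∀ w ∈ words gP, w = 0 ∨
      5 ≤ ((Finset.range 15).filter (fun a => w.testBit a = true)).card := by decide +kernel
  rcases key w hw with h | h
  · left; rw [h, vec_zero]
  · right
    have e : wt Pet (vec w) = ((Finset.range 15).filter (fun a => w.testBit a = true)).card := by
      unfold wt
      congr 1
      refine Finset.filter_congr fun a _ => ?_
      cases hh : w.testBit a <;> simp [vec, hh]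
    rw [e]
    exact h

theorem PetContract_wt (y : ℕ → ZMod 2) (hy : y ∈ PetContract.cycles) : wt PetContract y ≠ 3 := by
  obtain ⟨x, hx, rfl⟩ := hy
  intro h3
  have hle : wt Pet x ≤ wt PetContract (restr (Finset.range 14) x) + 1 := by
    unfold wt
    have hsub : Pet.E.filter (fun a => x a ≠ 0) ⊆
        insert 14 (PetContract.E.filter (fun a => restr (Finset.range 14) x a ≠ 0)) := by
      intro a ha
      rw [Finset.mem_filter] at ha
      have ha15 : a < 15 := Finset.mem_range.1 ha.1
      by_cases h14 : a = 14
      · rw [h14]; exact Finset.mem_insert_self _ _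
      · refine Finset.mem_insert_of_mem ?_
        have ha14 : a ∈ Finset.range 14 := Finset.mem_range.2 (by omega)
        rw [Finset.mem_filter, restr_apply, if_pos ha14]
        exact ⟨ha14, ha.2⟩
    exact le_trans (Finset.card_le_card hsub) (Finset.card_insert_le _ _)
  rcases Pet_wt x hx with h | h
  · rw [h] at h3
    simp [wt] at h3
  · omega

/-- The faces of the trapezohedron. -/
def faces : List ℕ := [771, 1548, 2496, 3120, 12294, 24600, 36993, 49248]

theorem faces_cycle : ∀ w ∈ faces, w ∈ words gT := by decide +kernel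

/-- every cycle of the trapezohedron graph has even size -/
theorem Trap_even (x : ℕ → ZMod 2) (hx : x ∈ Trap.cycles) : Even (wt Trap x) := by
  obtain ⟨w, hw, rfl⟩ := rep_Trap.span x hx
  have key : ∀ w ∈ words gT,
      ((Finset.range 16).filter (fun a => w.testBit a = true)).card % 2 = 0 := by decide +kernel
  have e : wt Trap (vec w) = ((Finset.range 16).filter (fun a => w.testBit a = true)).card := by
    unfold wt
    congr 1
    refine Finset.filter_congr fun a _ => ?_
    cases hh : w.testBit a <;> simp [vec, hh]
  rw [e]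
  exact Nat.even_iff.2 (key w hw)

theorem Trap_no_Pet : ¬ HasMinor Trap Pet := by
  rintro ⟨N, hN, hi⟩
  obtain ⟨Z, hZ, hy⟩ := minor_form hN
  have hsub := IsMinor.subset hN
  have hcard : N.E.card = 15 := by rw [hi.card]; rfl
  have hTE : Trap.E = Finset.range 16 := rfl
  have hd : (Trap.E \ N.E).card = 1 := by
    rw [Finset.card_sdiff_of_subset hsub, hcard]; rfl
  obtain ⟨p, hp⟩ := Finset.card_eq_one.1 hd
  have hp16 : p < 16 := by
    have : p ∈ Trap.E \ N.E := by rw [hp]; simp
    exact Finset.mem_range.1 (Finset.mem_sdiff.1 this).1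
  have key : ∀ p < 16, ∃ w ∈ faces, w.testBit p = false := by decide
  obtain ⟨w, hw, hwp⟩ := key p hp16
  have hx := rep_Trap.mem w (faces_cycle w hw)
  have hin : ∀ a, a ∉ N.E → vec w a = 0 := by
    intro a ha
    by_cases haT : a ∈ Trap.E
    · have : a ∈ Trap.E \ N.E := Finset.mem_sdiff.2 ⟨haT, ha⟩
      rw [hp, Finset.mem_singleton] at this
      rw [this]
      simp [vec, hwp]
    · exact Trap.supp _ hx a haT
  have hr : restr N.E (vec w) = vec w := by
    funext a
    rw [restr_apply]
    split_ifs with h
    · rfl
    · exact (hin a h).symm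
  have hxN : vec w ∈ N.cycles := (hy _).2 ⟨vec w, hx, fun a ha _ => hin a ha, hr⟩
  have hwt : wt N (vec w) = 4 := by
    have e : wt N (vec w) = wt Trap (vec w) := by
      unfold wt
      congr 1
      ext a
      rw [Finset.mem_filter, Finset.mem_filter]
      constructor
      · rintro ⟨h1, h2⟩; exact ⟨hsub h1, h2⟩
      · rintro ⟨h1, h2⟩
        refine ⟨?_, h2⟩
        by_contra h
        exact h2 (hin a h)
    rw [e]
    have key2 : ∀ w ∈ faces,
      ((Finset.range 16).filter (fun a => w.testBit a = true)).card = 4 := by decide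
    rw [← key2 w hw]
    unfold wt
    congr 1
    refine Finset.filter_congr fun a _ => ?_
    cases hh : w.testBit a <;> simp [vec, hh]
  obtain ⟨y, hyP, hyw⟩ := hi.transport _ hxN
  rcases Pet_wt y hyP with h | h
  · rw [h, hwt] at hyw
    simp [wt] at hyw
  · omega

theorem Trap_no_PetContract : ¬ HasMinor Trap PetContract := by
  rintro ⟨N, hN, hi⟩
  obtain ⟨Z, hZ, hy⟩ := minor_form hN
  have hsub := IsMinor.subset hN
  have hcard : N.E.card = 14 := by rw [hi.card]; rfl
  have hTE : Trap.E = Finset.range 16 := rfl
  have hd : (Trap.E \ N.E).card = 2 := by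
    rw [Finset.card_sdiff_of_subset hsub, hcard]; rfl
  rcases Z.eq_empty_or_nonempty with hZe | ⟨z, hz⟩
  · -- all cycles of N are cycles of Trap, hence even
    subst hZe
    have hP5 : vec 31 ∈ PetContract.cycles := by
      refine ⟨vec 31, rep_Pet.mem 31 (by decide), ?_⟩
      funext a
      rw [restr_apply]
      split_ifs with h
      · rfl
      · have : 14 ≤ a := by simpa using h
        have : (31 : ℕ).testBit a = false := Nat.testBit_lt_two_pow (lt_of_lt_of_le
          (by norm_num : 31 < 2 ^ 14) (Nat.pow_le_pow_right (by norm_num) this))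
        simp [vec, this]
    obtain ⟨x, hx, hxw⟩ := hi.transport' _ hP5
    have h5 : wt PetContract (vec 31) = 5 := by decide
    rw [h5] at hxw
    obtain ⟨x', hx', h0, hr⟩ := (hy x).1 hx
    have hxx : x = x' := by
      rw [← hr]
      funext a
      rw [restr_apply]
      split_ifs with h
      · rfl
      · exact (h0 a h (by simp)).symm
    have hev := Trap_even x' hx'
    have e : wt N x = wt Trap x' := by
      rw [hxx]
      unfold wt
      congr 1
      ext a
      rw [Finset.mem_filter, Finset.mem_filter]
      constructor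
      · rintro ⟨h1, h2⟩; exact ⟨hsub h1, h2⟩
      · rintro ⟨h1, h2⟩
        refine ⟨?_, h2⟩
        by_contra h
        exact h2 (h0 a h (by simp))
    rw [← e, hxw] at hev
    exact absurd hev (by decide)
  · -- a face through z avoiding the other removed element
    have hzD := hZ hz
    obtain ⟨z', hz'⟩ : ∃ z', (Trap.E \ N.E).erase z = {z'} := by
      rw [← Finset.card_eq_one, Finset.card_erase_of_mem hzD, hd]
    have hz'D : z' ∈ Trap.E \ N.E := by
      have : z' ∈ (Trap.E \ N.E).erase z := by rw [hz']; simp
      exact Finset.mem_of_mem_erase this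
    have hzz' : z ≠ z' := by
      have : z' ∈ (Trap.E \ N.E).erase z := by rw [hz']; simp
      exact fun h => (Finset.ne_of_mem_erase this) h.symm
    have hz16 : z < 16 := Finset.mem_range.1 (Finset.mem_sdiff.1 hzD).1
    have hz16' : z' < 16 := Finset.mem_range.1 (Finset.mem_sdiff.1 hz'D).1
    have key : ∀ z < 16, ∀ z' < 16, z ≠ z' → ∃ w ∈ faces, w.testBit z = true ∧
      w.testBit z' = false := by decide +kernel
    obtain ⟨w, hw, hwz, hwz'⟩ := key z hz16 z' hz16' hzz'
    have hx := rep_Trap.mem w (faces_cycle w hw)
    have hout : ∀ a, a ∉ N.E → a ≠ z → vec w a = 0 := by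
      intro a ha haz
      by_cases haT : a ∈ Trap.E
      · have : a ∈ (Trap.E \ N.E).erase z :=
          Finset.mem_erase.2 ⟨haz, Finset.mem_sdiff.2 ⟨haT, ha⟩⟩
        rw [hz', Finset.mem_singleton] at this
        rw [this]
        simp [vec, hwz']
      · exact Trap.supp _ hx a haT
    have hxN : restr N.E (vec w) ∈ N.cycles :=
      (hy _).2 ⟨vec w, hx, fun a ha haZ => hout a ha (fun h => haZ (h ▸ hz)), rfl⟩
    have hwt : wt N (restr N.E (vec w)) = 3 := by
      have e : N.E.filter (fun a => restr N.E (vec w) a ≠ 0) =
          ((Finset.range 16).filter (fun a => w.testBit a = true)).erase z := by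
        ext a
        rw [Finset.mem_filter, Finset.mem_erase, Finset.mem_filter]
        constructor
        · rintro ⟨h1, h2⟩
          rw [restr_apply, if_pos h1] at h2
          refine ⟨?_, hsub h1, ?_⟩
          · rintro rfl
            exact (Finset.mem_sdiff.1 hzD).2 h1
          · by_contra h
            exact h2 (by simp [vec, h])
        · rintro ⟨h1, h2, h3⟩
          have haN : a ∈ N.E := by
            by_contra h
            have := hout a h h1
            simp [vec, h3] at this
          rw [restr_apply, if_pos haN]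
          exact ⟨haN, by simp [vec, h3]⟩
      unfold wt
      rw [e, Finset.card_erase_of_mem]
      · have key2 : ∀ w ∈ faces,
          ((Finset.range 16).filter (fun a => w.testBit a = true)).card = 4 := by decide
        rw [key2 w hw]
      · rw [Finset.mem_filter]
        exact ⟨Finset.mem_range.2 hz16, hwz⟩
    obtain ⟨y, hyP, hyw⟩ := hi.transport _ hxN
    rw [hwt] at hyw
    exact PetContract_wt y hyP hyw

theorem HasMinor.of_minor {M N : BinMatroid α} {P : BinMatroid β} (h : IsMinor M N)
    (hP : HasMinor N P) : HasMinor M P := by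
  obtain ⟨N', h1, h2⟩ := hP
  exact ⟨N', h.trans h1, h2⟩

/-- **Main theorem.**  There is a minimal non-alternating bridgeless binary matroid which has no
minor isomorphic to `F*`, `K₅*` or `Pet` (in particular it is not isomorphic to one of the three).
It can be taken to be a minor of the cycle matroid of an explicit plane graph with 16 edges, whose
own Penrose polynomial is not alternating. -/
theorem result :
    (Bridgeless Trap ∧ ¬ Alternating Trap ∧ ¬ HasMinor Trap Fstar ∧ ¬ HasMinor Trap K5star ∧
      ¬ HasMinor Trap Pet ∧ ¬ HasMinor Trap PetContract) ∧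
    ∃ M : BinMatroid ℕ, IsMinor Trap M ∧ MinimalNonAlternating M ∧
      ¬ Iso M Fstar ∧ ¬ Iso M Pet ∧ ¬ Iso M K5star ∧
      ¬ HasMinor M Fstar ∧ ¬ HasMinor M Pet ∧ ¬ HasMinor M K5star ∧
      ¬ HasMinor M PetContract := by
  have h1 := not_hasMinor_of_graphic Trap_graphic Fstar_not_graphic
  have h2 := not_hasMinor_of_graphic Trap_graphic K5star_not_graphic
  have h3 := Trap_no_Pet
  have h4 := Trap_no_PetContract
  refine ⟨⟨Trap_bridgeless, Trap_not_alternating, h1, h2, h3, h4⟩, ?_⟩
  obtain ⟨M, hM, hmin⟩ := exists_minimal Trap Trap_bridgeless Trap_not_alternating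
  have g1 : ¬ HasMinor M Fstar := fun h => h1 (h.of_minor hM)
  have g2 : ¬ HasMinor M K5star := fun h => h2 (h.of_minor hM)
  have g3 : ¬ HasMinor M Pet := fun h => h3 (h.of_minor hM)
  have g4 : ¬ HasMinor M PetContract := fun h => h4 (h.of_minor hM)
  exact ⟨M, hM, hmin, fun h => g1 ⟨M, IsMinor.refl, h⟩, fun h => g3 ⟨M, IsMinor.refl, h⟩,
    fun h => g2 ⟨M, IsMinor.refl, h⟩, g1, g3, g2, g4⟩

end Pool.Agent.Results.MP_5bb8bc_co.PenroseMinors
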